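import Pool.Agent.Work.MP_e3f5d9_al.AL0

/-!
# Alpha lemma: basic facts about the children of a word
-/

set_option autoImplicit false

namespace R4.Al

variable {q : ℕ}

@[simp] theorem kid_nil (b : Bool) : kid b ([] : List (ZMod q)) = [] := by
  cases b <;> rfl

theorem kid_true_cons (c : ZMod q) (w : List (ZMod q)) :
    kid true (c :: w) = (c - 1) :: kid (decide (c ≠ 1)) w := rfl

theorem kid_false_cons (c : ZMod q) (w : List (ZMod q)) :
    kid false (c :: w) = kid (decide (c = 1)) w := rfl

/-- A word is determined by its two children. -/
theorem kid_inj : ∀ (P P' : List (ZMod q)), kid true P = kid true P' →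
    kid false P = kid false P' → P = P' := by
  intro P
  induction P with
  | nil =>
    intro P' h1 _
    cases P' with
    | nil => rfl
    | cons c' w' => simp [kid_true_cons] at h1
  | cons c w ih =>
    intro P' h1 h2
    cases P' with
    | nil => simp [kid_true_cons] at h1
    | cons c' w' =>
      rw [kid_true_cons, kid_true_cons, List.cons.injEq] at h1
      rw [kid_false_cons, kid_false_cons] at h2
      obtain ⟨hc, h1⟩ := h1
      have hc' : c = c' := by simpa using hc
      subst hc'
      congr 1
      by_cases h : c = 1
      · simp [h] at h1 h2
        exact ih _ h2 h1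
      · simp [h] at h1 h2
        exact ih _ h1 h2

/-- lengths add up -/
theorem length_kid : ∀ P : List (ZMod q), (kid true P).length + (kid false P).length = P.length := by
  intro P
  induction P with
  | nil => rfl
  | cons c w ih =>
    rw [kid_true_cons, kid_false_cons]
    by_cases h : c = 1
    · simp [h] at *
      omega
    · simp [h] at *
      omega

theorem count_kid (a : ZMod q) : ∀ P : List (ZMod q),
    (kid true P).count a + (kid false P).count a = P.count (a + 1) := by
  intro P
  induction P with
  | nil => rfl
  | cons c w ih =>
    rw [kid_true_cons, kid_false_cons, List.count_cons, List.count_cons, ← ih]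
    have h2 : ((c - 1) == a) = (c == a + 1) := by
      rw [Bool.eq_iff_iff, beq_iff_eq, beq_iff_eq]
      exact sub_eq_iff_eq_add
    rw [h2]
    by_cases h : c = 1
    · simp [h]
      omega
    · simp [h]
      omega

/-- the number of zeros of the active and the waiting child -/
theorem count_zero_kid (b : Bool) : ∀ P : List (ZMod q),
    (kid b P).count 0 = (P.count 1 + b.toNat) / 2 := by
  intro P
  induction P generalizing b with
  | nil => cases b <;> simp
  | cons c w ih =>
    cases b
    · rw [kid_false_cons, ih, List.count_cons]
      by_cases h : c = 1
      · simp [h]
      · simp [h]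
    · rw [kid_true_cons, List.count_cons, ih, List.count_cons]
      by_cases h : c = 1
      · simp [h]
        omega
      · have h2 : ¬ (c - 1 = 0) := by
          intro h3
          exact h (by rwa [sub_eq_zero] at h3)
        simp [h, h2]

/-- the flag after a prefix -/
def fl (b : Bool) (p : List (ZMod q)) : Bool := xor b (decide (p.count 1 % 2 = 1))

theorem kid_append (b : Bool) : ∀ p w : List (ZMod q),
    kid b (p ++ w) = kid b p ++ kid (fl b p) w := by
  intro p
  induction p generalizing b with
  | nil => intro w; simp [fl]
  | cons c p ih =>
    intro w
    cases b
    · rw [List.cons_append, kid_false_cons, kid_false_cons, ih]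
      congr 2
      unfold fl
      rw [List.count_cons]
      by_cases h : c = 1
      · rcases Nat.mod_two_eq_zero_or_one (p.count 1) with h1 | h1
        · simp [h, h1, Nat.add_mod]
        · simp [h, h1, Nat.add_mod]
      · simp [h]
    · rw [List.cons_append, kid_true_cons, kid_true_cons, ih, List.cons_append]
      congr 3
      unfold fl
      rw [List.count_cons]
      by_cases h : c = 1
      · rcases Nat.mod_two_eq_zero_or_one (p.count 1) with h1 | h1
        · simp [h, h1, Nat.add_mod]
        · simp [h, h1, Nat.add_mod]
      · simp [h]

end R4.Al
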