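import Pool.Agent.Work.MP_e3f5d9_al.AL1
import Pool.Agent.Work.MP_e3f5d9_al_helper21.ALk

/-!
# Alpha lemma: the combinatorial part
-/

set_option autoImplicit false
set_option linter.unusedSectionVars false
set_option linter.unusedSimpArgs false

namespace R4.Al

variable {q : ℕ} [NeZero q]

/-- unit vector -/
def ev1 (c : ZMod q) : Lb q := fun a => if a = c then 1 else 0

theorem cv_cons (c : ZMod q) (w : Wd q) : cv (c :: w) = ev1 c + cv w := by
  funext a
  simp only [cv, ev1, Pi.add_apply, List.count_cons]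
  by_cases h : a = c
  · subst h; simp; omega
  · have h2 : ¬ c = a := fun h3 => h h3.symm
    simp [h, h2]

theorem stp_nil : stp ([] : Wd q) = ∅ := rfl

theorem stp_cons (c : ZMod q) (w : Wd q) :
    stp (c :: w) = insert (0, c) ((stp w).image fun s => (ev1 c + s.1, s.2)) := by
  ext ⟨N, a⟩
  simp only [stp, Finset.mem_image, Finset.mem_range, Finset.mem_insert, List.length_cons,
    Prod.mk.injEq, Prod.exists]
  constructor
  · rintro ⟨i, hi, h1, h2⟩
    cases i with
    | zero =>
      left
      refine ⟨?_, ?_⟩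
      · rw [← h1]; rfl
      · rw [← h2]; rfl
    | succ j =>
      right
      refine ⟨cv (w.take j), w.getD j 0, ⟨j, by omega, rfl, rfl⟩, ?_, ?_⟩
      · rw [← h1, List.take_succ_cons, cv_cons]
      · rw [← h2]; rfl
  · rintro (⟨h1, h2⟩ | ⟨M, a', ⟨j, hj, h1, h2⟩, h3, h4⟩)
    · refine ⟨0, by omega, ?_, ?_⟩
      · rw [h1]; rfl
      · rw [h2]; rfl
    · refine ⟨j + 1, by omega, ?_, ?_⟩
      · rw [List.take_succ_cons, cv_cons, h1, h3]
      · rw [← h4, ← h2]; rfl

/-- The label after the `i`-th zero. -/
def lab : Wd q → ℕ → Lb q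
  | _, 0 => 0
  | [], _ + 1 => 0
  | c :: w, i + 1 => ev1 c + lab w (if c = 0 then i else i + 1)

@[simp] theorem lab_zero (w : Wd q) : lab w 0 = 0 := by
  cases w <;> rfl

theorem lab_cons_succ (c : ZMod q) (w : Wd q) (i : ℕ) :
    lab (c :: w) (i + 1) = ev1 c + lab w (if c = 0 then i else i + 1) := rfl

/-- shift of labels -/
def sh (N : Lb q) : Lb q := fun a => N (a - 1)

theorem sh_add (M N : Lb q) : sh (M + N) = sh M + sh N := rfl

theorem sh_inj {M N : Lb q} (h : sh M = sh N) : M = N := by
  funext a
  have := congrFun h (a + 1)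
  simpa [sh] using this

theorem sh_ev1 (c : ZMod q) : sh (ev1 c) = ev1 (c + 1) := by
  funext a
  simp only [sh, ev1, sub_eq_iff_eq_add]

/-- offset of a child -/
def off (b : Bool) : ℕ := if b then 0 else 1

/-- From a step of the child `b` (the other child is `v`) to a step of the word. -/
def phi (b : Bool) (v : Wd q) (s : Lb q × ZMod q) : Lb q × ZMod q :=
  (sh (s.1 + lab v (s.1 0 + off b)), s.2 + 1)

theorem ev1_zero (c : ZMod q) : ev1 c 0 = if c = 0 then 1 else 0 := by
  simp only [ev1, eq_comm]

/-- **Key identity**. -/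
theorem stp_eq : ∀ w : Wd q, stp w = (stp (kid true w)).image (phi true (kid false w)) ∪
    (stp (kid false w)).image (phi false (kid true w)) := by
  intro w
  induction w with
  | nil => simp [stp_nil]
  | cons c w ih =>
    rw [stp_cons, ih, kid_true_cons, kid_false_cons]
    by_cases h : c = 1
    · subst h
      simp only [ne_eq, not_true_eq_false, decide_false, decide_true, sub_self]
      rw [stp_cons, Finset.image_union, Finset.image_insert, Finset.image_image, Finset.image_image,
        Finset.image_image, Finset.insert_union]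
      congr 1
      · simp [phi, off, sh]
        rfl
      · rw [Finset.union_comm]
        congr 1
        · apply Finset.image_congr
          rintro ⟨M, a⟩ _
          simp only [Function.comp, phi, off, Prod.mk.injEq, and_true]
          simp only [Pi.add_apply, ev1_zero, sh_add, sh_ev1]
          simp [add_comm 1 (M 0), add_assoc]
        · apply Finset.image_congr
          rintro ⟨M, a⟩ _
          simp only [Function.comp, phi, off, Prod.mk.injEq, and_true]
          simp [lab_cons_succ, sh_add, sh_ev1]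
          abel
    · simp only [ne_eq, h, not_false_eq_true, decide_true, decide_false]
      have h2 : ¬ (c - 1 = 0) := by
        intro h3
        exact h (by rwa [sub_eq_zero] at h3)
      rw [stp_cons, Finset.image_union, Finset.image_insert, Finset.image_image, Finset.image_image,
        Finset.image_image, Finset.insert_union]
      congr 1
      · simp [phi, off, sh]
        rfl
      · congr 1
        · apply Finset.image_congr
          rintro ⟨M, a⟩ _
          simp only [Function.comp, phi, off, Prod.mk.injEq, and_true]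
          simp [ev1_zero, h2, sh_add, sh_ev1]
          abel
        · apply Finset.image_congr
          rintro ⟨M, a⟩ _
          simp only [Function.comp, phi, off, Prod.mk.injEq, and_true]
          simp [lab_cons_succ, h2, sh_add, sh_ev1]
          abel

theorem mem_rd {w : Wd q} {a : ZMod q} {M : Lb q} : M ∈ rd w a ↔ (M, a) ∈ stp w := by
  unfold rd
  rw [Finset.mem_image]
  constructor
  · rintro ⟨⟨M', a'⟩, h, rfl⟩
    rw [Finset.mem_filter] at h
    obtain ⟨h1, h2⟩ := h
    simp only at h2
    subst h2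
    exact h1
  · intro h
    exact ⟨(M, a), Finset.mem_filter.2 ⟨h, rfl⟩, rfl⟩

theorem lab_at_zero : ∀ (v : Wd q) (i : ℕ), lab v i 0 = min i (v.count 0) := by
  intro v
  induction v with
  | nil =>
    intro i
    cases i <;> rfl
  | cons c v ih =>
    intro i
    cases i with
    | zero => simp
    | succ i =>
      rw [lab_cons_succ, Pi.add_apply, ev1_zero, ih, List.count_cons]
      by_cases h : c = 0
      · simp [h]
        omega
      · simp [h]

theorem mem_stp_cons {c : ZMod q} {w : Wd q} {s : Lb q × ZMod q} :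
    s ∈ stp (c :: w) ↔ s = (0, c) ∨ ∃ s' ∈ stp w, (ev1 c + s'.1, s'.2) = s := by
  rw [stp_cons, Finset.mem_insert, Finset.mem_image]

theorem step_le : ∀ w : Wd q, (∀ s ∈ stp (kid true w), s.1 0 ≤ (kid false w).count 0) ∧
    (∀ s ∈ stp (kid false w), s.1 0 + 1 ≤ (kid true w).count 0) := by
  intro w
  induction w with
  | nil => simp [stp_nil]
  | cons c w ih =>
    rw [kid_true_cons, kid_false_cons]
    by_cases h : c = 1
    · subst h
      simp only [ne_eq, not_true_eq_false, decide_false, decide_true, sub_self]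
      constructor
      · intro s hs
        rw [mem_stp_cons] at hs
        rcases hs with rfl | ⟨s', hs', rfl⟩
        · simp
        · have := ih.2 s' hs'
          simp only [Pi.add_apply, ev1_zero, if_true]
          omega
      · intro s hs
        have := ih.1 s hs
        rw [List.count_cons]
        simp
        exact this
    · simp only [ne_eq, h, not_false_eq_true, decide_true, decide_false]
      have h2 : ¬ (c - 1 = 0) := by
        intro h3
        exact h (by rwa [sub_eq_zero] at h3)
      constructor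
      · intro s hs
        rw [mem_stp_cons] at hs
        rcases hs with rfl | ⟨s', hs', rfl⟩
        · simp
        · have := ih.1 s' hs'
          simp only [Pi.add_apply, ev1_zero, if_neg h2]
          omega
      · intro s hs
        have := ih.2 s hs
        rw [List.count_cons]
        simp [h2]
        exact this

theorem step_le' (b : Bool) (w : Wd q) (s : Lb q × ZMod q) (hs : s ∈ stp (kid b w)) :
    s.1 0 + off b ≤ (kid (!b) w).count 0 := by
  cases b
  · exact (step_le w).2 s hs
  · exact (step_le w).1 s hs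

/-- the label of a step of the word that comes from the child `b` -/
theorem phi_at_one (b : Bool) (w : Wd q) (s : Lb q × ZMod q) (hs : s ∈ stp (kid b w)) :
    (phi b (kid (!b) w) s).1 1 = 2 * s.1 0 + off b := by
  have h := step_le' b w s hs
  simp only [phi, sh, sub_self, Pi.add_apply, lab_at_zero]
  rw [min_eq_left h]
  omega

theorem phi_mem (b : Bool) (w : Wd q) (s : Lb q × ZMod q) (hs : s ∈ stp (kid b w)) :
    phi b (kid (!b) w) s ∈ stp w := by
  rw [stp_eq w]
  cases b
  · exact Finset.mem_union_right _ (Finset.mem_image_of_mem _ hs)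
  · exact Finset.mem_union_left _ (Finset.mem_image_of_mem _ hs)

theorem phi_inj' (b : Bool) (v : Wd q) {s s' : Lb q × ZMod q} (h : phi b v s = phi b v s')
    (h0 : s.1 0 = s'.1 0) : s = s' := by
  simp only [phi, Prod.mk.injEq] at h
  obtain ⟨h1, h2⟩ := h
  have h3 := sh_inj h1
  rw [h0] at h3
  exact Prod.ext (add_right_cancel h3) (add_right_cancel h2)

theorem mem_steps {S : Finset (Wd q)} {s : Lb q × ZMod q} :
    s ∈ steps S ↔ ∃ w ∈ S, s ∈ stp w := by
  simp [steps]

theorem mem_fib {b : Bool} {S : Finset (Wd q)} {v x : Wd q} :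
    x ∈ fib b S v ↔ ∃ w ∈ S, kid (!b) w = v ∧ kid b w = x := by
  simp only [fib, Finset.mem_image, Finset.mem_filter]
  constructor
  · rintro ⟨w, ⟨h1, h2⟩, h3⟩
    exact ⟨w, h1, h2, h3⟩
  · rintro ⟨w, h1, h2, h3⟩
    exact ⟨w, ⟨h1, h2⟩, h3⟩

/-- the part of the steps that comes from the child `b` -/
def part (b : Bool) (S : Finset (Wd q)) : Finset (Lb q × ZMod q) :=
  (steps S).filter fun s => s.1 1 % 2 = off b

theorem phi_steps {b : Bool} {S : Finset (Wd q)} {v : Wd q} {s : Lb q × ZMod q}
    (hs : s ∈ steps (fib b S v)) :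
    phi b v s ∈ part b S ∧ (phi b v s).1 1 = 2 * s.1 0 + off b := by
  rw [mem_steps] at hs
  obtain ⟨x, hx, hs⟩ := hs
  rw [mem_fib] at hx
  obtain ⟨w, hw, rfl, rfl⟩ := hx
  have h1 := phi_at_one b w s hs
  refine ⟨?_, h1⟩
  rw [part, Finset.mem_filter]
  refine ⟨mem_steps.2 ⟨w, hw, phi_mem b w s hs⟩, ?_⟩
  rw [h1]
  cases b <;> simp [off]

theorem phi_injOn (b : Bool) (S : Finset (Wd q)) (v : Wd q) :
    Set.InjOn (phi b v) (steps (fib b S v) : Set (Lb q × ZMod q)) := by
  intro s hs s' hs' h
  have h1 := (phi_steps (Finset.mem_coe.1 hs)).2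
  have h2 := (phi_steps (Finset.mem_coe.1 hs')).2
  apply phi_inj' b v h
  rw [h, h2] at h1
  omega

theorem card_le_part (b : Bool) (S : Finset (Wd q)) (v : Wd q) :
    (steps (fib b S v)).card ≤ (part b S).card := by
  apply Finset.card_le_card_of_injOn (phi b v)
  · intro s hs
    exact (phi_steps (Finset.mem_coe.1 hs)).1
  · exact phi_injOn b S v

theorem card_parts (S : Finset (Wd q)) (b : Bool) :
    (part b S).card + (part (!b) S).card ≤ (steps S).card := by
  rw [← Finset.card_union_of_disjoint]
  · apply Finset.card_le_card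
    intro s hs
    rw [Finset.mem_union, part, part, Finset.mem_filter, Finset.mem_filter] at hs
    tauto
  · rw [Finset.disjoint_left]
    intro s h1 h2
    rw [part, Finset.mem_filter] at h1 h2
    have h3 := h1.2
    have h4 := h2.2
    rw [h3] at h4
    cases b <;> simp [off] at h4

theorem alTwo (S : Finset (Wd q)) (u v : Wd q) :
    (steps (fib true S v)).card + (steps (fib false S u)).card ≤ (steps S).card :=
  (add_le_add (card_le_part true S v) (card_le_part false S u)).trans (card_parts S true)

/-- the readings of zero -/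
theorem mem_stp_zero : ∀ (v : Wd q) (M : Lb q), (M, (0 : ZMod q)) ∈ stp v ↔
    M 0 + 1 ≤ v.count 0 ∧ M + ev1 0 = lab v (M 0 + 1) := by
  intro v
  induction v with
  | nil => intro M; simp [stp_nil]
  | cons c v ih =>
    intro M
    rw [mem_stp_cons, lab_cons_succ, List.count_cons]
    by_cases h : c = 0
    · subst h
      simp only [if_true, beq_self_eq_true, add_le_add_iff_right]
      constructor
      · rintro (h1 | ⟨⟨M', a⟩, h2, h3⟩)
        · simp only [Prod.mk.injEq, and_true] at h1
          subst h1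
          simp
        · simp only [Prod.mk.injEq] at h3
          obtain ⟨rfl, rfl⟩ := h3
          rw [ih] at h2
          simp only [Pi.add_apply, ev1_zero, if_true]
          refine ⟨by omega, ?_⟩
          rw [add_comm 1 (M' 0), ← h2.2]
          abel
      · rintro ⟨h1, h2⟩
        rw [add_comm] at h2
        have h2 := add_left_cancel h2
        rcases Nat.eq_zero_or_pos (M 0) with h0 | h0
        · left
          rw [h0, lab_zero] at h2
          rw [h2]
        · right
          obtain ⟨j, hj⟩ : ∃ j, M 0 = j + 1 := ⟨M 0 - 1, by omega⟩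
          have hM : ev1 0 + (fun a => M a - ev1 0 a) = M := by
            funext a
            simp only [Pi.add_apply, ev1]
            by_cases ha : a = 0
            · subst ha; simp; omega
            · simp [ha]
          refine ⟨(fun a => M a - ev1 0 a, 0), ?_, ?_⟩
          · rw [ih]
            have h3 : M 0 - ev1 (0 : ZMod q) 0 = j := by simp [ev1, hj]
            simp only [h3]
            rw [hj] at h1 h2
            refine ⟨h1, ?_⟩
            rw [← h2, add_comm, hM]
          · simp only [hM]
    · simp only [if_neg h, beq_iff_eq, h, if_false, add_zero]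
      constructor
      · rintro (h1 | ⟨⟨M', a⟩, h2, h3⟩)
        · simp only [Prod.mk.injEq] at h1
          exact absurd h1.2.symm h
        · simp only [Prod.mk.injEq] at h3
          obtain ⟨rfl, rfl⟩ := h3
          rw [ih] at h2
          simp only [Pi.add_apply, ev1_zero, if_neg h, zero_add]
          refine ⟨h2.1, ?_⟩
          rw [← h2.2]
          abel
      · rintro ⟨h1, h2⟩
        right
        have hc : 1 ≤ M c := by
          have := congrFun h2 c
          simp only [Pi.add_apply, ev1, if_neg h, if_true] at this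
          omega
        have hM : ev1 c + (fun a => M a - ev1 c a) = M := by
          funext a
          simp only [Pi.add_apply, ev1]
          by_cases ha : a = c
          · subst ha; simp; omega
          · simp [ha]
        refine ⟨(fun a => M a - ev1 c a, 0), ?_, ?_⟩
        · rw [ih]
          have h3 : M 0 - ev1 c 0 = M 0 := by simp [ev1_zero, h]
          simp only [h3]
          refine ⟨h1, ?_⟩
          have h4 : ev1 c + ((fun a => M a - ev1 c a) + ev1 (0 : ZMod q)) =
              ev1 c + lab v (M 0 + 1) := by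
            rw [← add_assoc, hM, h2]
          exact add_left_cancel h4
        · simp only [hM]

theorem lab_rd (v : Wd q) (i : ℕ) (hi : i + 1 ≤ v.count 0) :
    ∃ M ∈ rd v 0, M 0 = i ∧ M + ev1 0 = lab v (i + 1) := by
  have h0 : lab v (i + 1) 0 = i + 1 := by rw [lab_at_zero, min_eq_left hi]
  have hM : (fun a => lab v (i + 1) a - ev1 0 a) + ev1 0 = lab v (i + 1) := by
    funext a
    simp only [Pi.add_apply, ev1]
    by_cases ha : a = 0
    · subst ha; simp; omega
    · simp [ha]
  have h1 : (fun a => lab v (i + 1) a - ev1 0 a) 0 = i := by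
    simp only [h0, ev1_zero, if_true]
    omega
  refine ⟨fun a => lab v (i + 1) a - ev1 0 a, ?_, h1, hM⟩
  rw [mem_rd, mem_stp_zero]
  simp only at h1
  simp only [h1]
  exact ⟨hi, hM⟩

theorem rd_lab {v v' : Wd q} (h : rd v 0 = rd v' 0) :
    v.count 0 = v'.count 0 ∧ ∀ i ≤ v.count 0, lab v i = lab v' i := by
  have key : ∀ {v v' : Wd q}, rd v 0 = rd v' 0 → ∀ i, i + 1 ≤ v.count 0 → i + 1 ≤ v'.count 0 ∧
      lab v (i + 1) = lab v' (i + 1) := by
    intro v v' h i hi
    obtain ⟨M, h1, h2, h3⟩ := lab_rd v i hi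
    rw [h, mem_rd, mem_stp_zero, h2] at h1
    exact ⟨h1.1, by rw [← h3, h1.2]⟩
  have h1 : v.count 0 ≤ v'.count 0 := by
    by_contra hh
    push Not at hh
    have := (key h (v.count 0 - 1) (by omega)).1
    omega
  have h2 : v'.count 0 ≤ v.count 0 := by
    by_contra hh
    push Not at hh
    have := (key h.symm (v'.count 0 - 1) (by omega)).1
    omega
  refine ⟨le_antisymm h1 h2, ?_⟩
  intro i hi
  cases i with
  | zero => simp
  | succ i => exact (key h i hi).2

theorem lab_rd' {v v' : Wd q} (hc : v.count 0 = v'.count 0)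
    (h : ∀ i ≤ v.count 0, lab v i = lab v' i) : rd v 0 = rd v' 0 := by
  ext M
  rw [mem_rd, mem_rd, mem_stp_zero, mem_stp_zero, ← hc]
  constructor
  · rintro ⟨h1, h2⟩
    exact ⟨h1, by rw [h2, h _ h1]⟩
  · rintro ⟨h1, h2⟩
    exact ⟨h1, by rw [h2, h _ h1]⟩

theorem mem_rd_succ (w : Wd q) (a : ZMod q) (N : Lb q) :
    N ∈ rd w (a + 1) ↔ ∃ b, ∃ M ∈ rd (kid b w) a, sh (M + lab (kid (!b) w) (M 0 + off b)) = N := by
  rw [mem_rd, stp_eq, Finset.mem_union, Finset.mem_image, Finset.mem_image]
  constructor
  · rintro (⟨⟨M, c⟩, h1, h2⟩ | ⟨⟨M, c⟩, h1, h2⟩)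
    · simp only [phi, Prod.mk.injEq, add_left_inj] at h2
      obtain ⟨h2, rfl⟩ := h2
      exact ⟨true, M, mem_rd.2 h1, h2⟩
    · simp only [phi, Prod.mk.injEq, add_left_inj] at h2
      obtain ⟨h2, rfl⟩ := h2
      exact ⟨false, M, mem_rd.2 h1, h2⟩
  · rintro ⟨b, M, h1, h2⟩
    cases b
    · right
      exact ⟨(M, a), mem_rd.1 h1, by simp only [phi, Prod.mk.injEq, and_true]; exact h2⟩
    · left
      exact ⟨(M, a), mem_rd.1 h1, by simp only [phi, Prod.mk.injEq, and_true]; exact h2⟩

theorem alPar_aux (w w' : Wd q) (a : ZMod q) (h0 : ∀ b, rd (kid b w) 0 = rd (kid b w') 0)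
    (ha : ∀ b, rd (kid b w) a = rd (kid b w') a) : rd w (a + 1) ⊆ rd w' (a + 1) := by
  intro N hN
  rw [mem_rd_succ] at hN ⊢
  obtain ⟨b, M, h1, h2⟩ := hN
  refine ⟨b, M, by rw [← ha b]; exact h1, ?_⟩
  rw [← h2]
  have h3 := step_le' b w (M, a) (mem_rd.1 h1)
  rw [(rd_lab (h0 (!b))).2 _ h3]

theorem alPar (w w' : Wd q) (a : ZMod q) (h0 : ∀ b, rd (kid b w) 0 = rd (kid b w') 0)
    (ha : ∀ b, rd (kid b w) a = rd (kid b w') a) : rd w (a + 1) = rd w' (a + 1) :=
  Finset.Subset.antisymm (alPar_aux w w' a h0 ha)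
    (alPar_aux w' w a (fun b => (h0 b).symm) (fun b => (ha b).symm))

theorem stp_inj : ∀ w w' : Wd q, stp w = stp w' → w = w' := by
  intro w
  induction w with
  | nil =>
    intro w' h
    cases w' with
    | nil => rfl
    | cons c' w' =>
      have h1 : ((0 : Lb q), c') ∈ stp (c' :: w') := mem_stp_cons.2 (Or.inl rfl)
      rw [← h, stp_nil] at h1
      exact absurd h1 (Finset.notMem_empty _)
  | cons c w ih =>
    intro w' h
    cases w' with
    | nil =>
      have h1 : ((0 : Lb q), c) ∈ stp (c :: w) := mem_stp_cons.2 (Or.inl rfl)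
      rw [h, stp_nil] at h1
      exact absurd h1 (Finset.notMem_empty _)
    | cons c' w' =>
      have hne : ∀ (d : ZMod q) (s : Lb q × ZMod q), (ev1 d + s.1, s.2).1 ≠ 0 := by
        intro d s h1
        have := congrFun h1 d
        simp [ev1] at this
      have hc : c = c' := by
        have h1 : ((0 : Lb q), c) ∈ stp (c :: w) := mem_stp_cons.2 (Or.inl rfl)
        rw [h, mem_stp_cons] at h1
        rcases h1 with h1 | ⟨s, _, h2⟩
        · exact (Prod.mk.inj h1).2
        · exact absurd (by rw [h2]) (hne c' s)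
      subst hc
      congr 1
      apply ih
      have key : ∀ {u u' : Wd q}, stp (c :: u) = stp (c :: u') → stp u ⊆ stp u' := by
        intro u u' h s hs
        have h1 : (ev1 c + s.1, s.2) ∈ stp (c :: u) := mem_stp_cons.2 (Or.inr ⟨s, hs, rfl⟩)
        rw [h, mem_stp_cons] at h1
        rcases h1 with h1 | ⟨s', h1, h2⟩
        · exact absurd (by rw [h1]) (hne c s)
        · rw [Prod.mk.injEq] at h2
          have h3 : s' = s := Prod.ext (add_left_cancel h2.1) h2.2
          rwa [h3] at h1
      exact Finset.Subset.antisymm (key h) (key h.symm)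

theorem alRcv (w w' : Wd q) (h : ∀ a, rd w a = rd w' a) : w = w' := by
  apply stp_inj
  ext ⟨M, a⟩
  rw [← mem_rd, ← mem_rd, h a]

theorem alInj (w w' : Wd q) (h : ∀ b, kid b w = kid b w') : w = w' :=
  kid_inj w w' (h true) (h false)

/-! ### balanced words -/

theorem count_sum (w : Wd q) : ∑ a : ZMod q, w.count a = w.length := by
  induction w with
  | nil => simp
  | cons c w ih =>
    simp only [List.count_cons, Finset.sum_add_distrib, ih, List.length_cons]
    congr 1
    simp [Finset.sum_ite_eq]

theorem bal_upper {C : ℕ} {w : Wd q} (h : Bal C w) (b : ZMod q) :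
    w.length ≤ q * (w.count b + C) := by
  rw [← count_sum w]
  calc ∑ a : ZMod q, w.count a ≤ ∑ _a : ZMod q, (w.count b + C) :=
        Finset.sum_le_sum fun a _ => h w (List.infix_refl w) a b
    _ = q * (w.count b + C) := by simp [ZMod.card]

theorem bal_lower {C : ℕ} {w : Wd q} (h : Bal C w) (b : ZMod q) :
    q * w.count b ≤ w.length + q * C := by
  rw [← count_sum w]
  calc q * w.count b = ∑ _a : ZMod q, w.count b := by simp [ZMod.card]
    _ ≤ ∑ a : ZMod q, (w.count a + C) :=
        Finset.sum_le_sum fun a _ => h w (List.infix_refl w) b a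
    _ = ∑ a : ZMod q, w.count a + q * C := by simp [Finset.sum_add_distrib, ZMod.card]

theorem good_zero {C k : ℕ} {w : Wd q} (h : Good C k w) : Bal C w := h [] (Nat.zero_le _)

theorem good_kid {C k : ℕ} {w : Wd q} (h : Good C (k + 1) w) (b : Bool) : Good C k (kid b w) :=
  fun u hu => h (b :: u) (by simpa using hu)

theorem alLen (C : ℕ) : ∃ c₁ : ℕ, ∀ (w : Wd q) (b : Bool), Good C 1 w →
    2 * (kid b w).length ≤ w.length + c₁ := by
  refine ⟨3 * (q * C) + q, fun w b h => ?_⟩
  have h1 := bal_upper (good_zero (good_kid h b)) 0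
  have h2 := bal_lower (good_zero h) 1
  have h3 := count_zero_kid b w
  have h4 : 2 * (kid b w).count 0 ≤ w.count 1 + 1 := by
    rw [h3]
    have : b.toNat ≤ 1 := by cases b <;> simp
    omega
  have h5 : q * (2 * (kid b w).count 0) ≤ q * (w.count 1 + 1) := Nat.mul_le_mul_left q h4
  nlinarith [h1, h2, h5]

/-- balanced labels -/
def box (C n : ℕ) : Finset (Lb q) :=
  (Finset.range (n + 1) ×ˢ Fintype.piFinset fun _ : ZMod q => Finset.range (2 * C + 1)).image
    fun x => fun a => x.1 + x.2 a - C

theorem card_box (C n : ℕ) : (box C n : Finset (Lb q)).card ≤ (n + 1) * (2 * C + 1) ^ q := by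
  unfold box
  refine Finset.card_image_le.trans ?_
  rw [Finset.card_product, Finset.card_range, Fintype.card_piFinset]
  simp [ZMod.card]

theorem mem_box {C n : ℕ} {N : Lb q} (h0 : N 0 ≤ n) (h : ∀ a b, N a ≤ N b + C) :
    N ∈ box C n := by
  unfold box
  rw [Finset.mem_image]
  refine ⟨(N 0, fun a => N a + C - N 0), ?_, ?_⟩
  · rw [Finset.mem_product, Fintype.mem_piFinset]
    refine ⟨Finset.mem_range.2 (by omega), fun a => Finset.mem_range.2 ?_⟩
    have := h a 0
    simp only
    omega
  · funext a
    have := h 0 a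
    simp only
    omega

theorem cv_box {C n : ℕ} {w p : Wd q} (hb : Bal C w) (hp : p <:+: w) (hn : w.length ≤ n) :
    cv p ∈ box C n := by
  apply mem_box
  · exact (List.count_le_length).trans (hp.length_le.trans hn)
  · intro a b
    exact hb p hp a b

theorem stp_box {C n : ℕ} {w : Wd q} (hb : Bal C w) (hn : w.length ≤ n) {s : Lb q × ZMod q}
    (hs : s ∈ stp w) : s.1 ∈ box C n := by
  unfold stp at hs
  rw [Finset.mem_image] at hs
  obtain ⟨i, _, rfl⟩ := hs
  exact cv_box hb (List.take_prefix i w).isInfix hn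

theorem alLin (C : ℕ) : ∃ D : ℕ, ∀ (n : ℕ) (S : Finset (Wd q)),
    (∀ w ∈ S, w.length ≤ n ∧ Good C 0 w) → (steps S).card ≤ D * (n + 1) := by
  refine ⟨(2 * C + 1) ^ q * q, fun n S hS => ?_⟩
  have h1 : steps S ⊆ (box C n) ×ˢ (Finset.univ : Finset (ZMod q)) := by
    intro s hs
    rw [mem_steps] at hs
    obtain ⟨w, hw, hs⟩ := hs
    rw [Finset.mem_product]
    exact ⟨stp_box (good_zero (hS w hw).2) (hS w hw).1 hs, Finset.mem_univ _⟩
  refine (Finset.card_le_card h1).trans ?_
  rw [Finset.card_product, Finset.card_univ, ZMod.card]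
  calc (box C n : Finset (Lb q)).card * q ≤ ((n + 1) * (2 * C + 1) ^ q) * q :=
        Nat.mul_le_mul_right q (card_box C n)
    _ = (2 * C + 1) ^ q * q * (n + 1) := by ring

theorem lab_prefix : ∀ (v : Wd q) (i : ℕ), ∃ p, p <+: v ∧ lab v i = cv p := by
  intro v
  induction v with
  | nil =>
    intro i
    refine ⟨[], List.nil_prefix, ?_⟩
    cases i <;> rfl
  | cons c v ih =>
    intro i
    cases i with
    | zero => exact ⟨[], List.nil_prefix, by rw [lab_zero]; rfl⟩
    | succ i =>
      obtain ⟨p, h1, h2⟩ := ih (if c = 0 then i else i + 1)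
      refine ⟨c :: p, (List.cons_prefix_cons).2 ⟨rfl, h1⟩, ?_⟩
      rw [lab_cons_succ, h2, cv_cons]

/-- the indices at which the labels differ -/
def dif (v₁ v : Wd q) : Finset ℕ :=
  (Finset.range (v.count 0 + 1)).filter fun j => lab v j ≠ lab v₁ j

theorem dif_exists {b : Bool} {S : Finset (Wd q)} {v v₁ : Wd q} {Th : Finset (Wd q)}
    (hT : Th = fib b S v ∩ fib b S v₁) {x : Wd q} (hx : x ∈ Th) {j : ℕ}
    (hj : lab v j ≠ lab v₁ j) (h1 : off b ≤ j) (h2 : j - off b < x.count 0) :
    ∃ e ∈ part b S, e.1 1 = 2 * (j - off b) + off b ∧ e ∉ (steps Th).image (phi b v₁) := by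
  classical
  have hsub : Th ⊆ fib b S v := by rw [hT]; exact Finset.inter_subset_left
  have hsub1 : Th ⊆ fib b S v₁ := by rw [hT]; exact Finset.inter_subset_right
  have hst : ∀ s ∈ steps Th, s ∈ steps (fib b S v) := by
    intro s hs
    rw [mem_steps] at hs ⊢
    obtain ⟨w, hw, h⟩ := hs
    exact ⟨w, hsub hw, h⟩
  have hst1 : ∀ s ∈ steps Th, s ∈ steps (fib b S v₁) := by
    intro s hs
    rw [mem_steps] at hs ⊢
    obtain ⟨w, hw, h⟩ := hs
    exact ⟨w, hsub1 hw, h⟩
  set i := j - off b with hi
  set A := (steps Th).filter fun s => s.1 0 = i with hA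
  have hAne : A.Nonempty := by
    obtain ⟨M, hM, hM0, _⟩ := lab_rd x i (by omega)
    refine ⟨(M, 0), ?_⟩
    rw [hA, Finset.mem_filter]
    exact ⟨mem_steps.2 ⟨x, hx, mem_rd.1 hM⟩, hM0⟩
  have hinj : Set.InjOn (phi b v) (A : Set (Lb q × ZMod q)) := by
    intro s hs s' hs' h
    exact phi_injOn b S v (hst s (Finset.mem_filter.1 hs).1) (hst s' (Finset.mem_filter.1 hs').1) h
  have hinj1 : Set.InjOn (phi b v₁) (A : Set (Lb q × ZMod q)) := by
    intro s hs s' hs' h
    exact phi_injOn b S v₁ (hst1 s (Finset.mem_filter.1 hs).1)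
      (hst1 s' (Finset.mem_filter.1 hs').1) h
  have hex : ∃ s ∈ A, phi b v s ∉ A.image (phi b v₁) := by
    by_contra hcon
    push Not at hcon
    have h3 : A.image (phi b v) ⊆ A.image (phi b v₁) := by
      intro e he
      obtain ⟨s, hs, rfl⟩ := Finset.mem_image.1 he
      exact hcon s hs
    have h4 : A.image (phi b v) = A.image (phi b v₁) := by
      apply Finset.eq_of_subset_of_card_le h3
      rw [Finset.card_image_of_injOn hinj, Finset.card_image_of_injOn hinj1]
    apply hj
    funext a
    have h5 : ∀ (u : Wd q), Set.InjOn (phi b u) (A : Set (Lb q × ZMod q)) →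
        ∑ e ∈ A.image (phi b u), e.1 (a + 1) = ∑ s ∈ A, s.1 a + A.card * lab u j a := by
      intro u hu
      rw [Finset.sum_image hu]
      have : ∀ s ∈ A, (phi b u s).1 (a + 1) = s.1 a + lab u j a := by
        intro s hs
        have h6 : s.1 0 = i := (Finset.mem_filter.1 hs).2
        simp only [phi, sh, add_sub_cancel_right, Pi.add_apply, h6]
        rw [show i + off b = j by omega]
      rw [Finset.sum_congr rfl this, Finset.sum_add_distrib, Finset.sum_const, smul_eq_mul]
    have h6 := h5 v hinj
    have h7 := h5 v₁ hinj1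
    rw [h4, h7] at h6
    have h8 := Nat.add_left_cancel h6
    exact (Nat.eq_of_mul_eq_mul_left (Finset.card_pos.2 hAne) h8).symm
  obtain ⟨s, hs, hs2⟩ := hex
  have hs0 : s.1 0 = i := (Finset.mem_filter.1 hs).2
  have h3 := phi_steps (hst s (Finset.mem_filter.1 hs).1)
  refine ⟨phi b v s, h3.1, by rw [h3.2, hs0], ?_⟩
  intro h4
  obtain ⟨s', hs', h5⟩ := Finset.mem_image.1 h4
  apply hs2
  rw [Finset.mem_image]
  refine ⟨s', ?_, h5⟩
  rw [hA, Finset.mem_filter]
  refine ⟨hs', ?_⟩
  have h6 := (phi_steps (hst1 s' hs')).2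
  rw [h5, h3.2, hs0] at h6
  omega

theorem off_le_one (b : Bool) : off b ≤ 1 := by cases b <;> simp [off]

theorem card_dif {b : Bool} {S : Finset (Wd q)} {v v₁ u₀ : Wd q} {t : ℕ}
    (hne : (fib b S v ∩ fib b S v₁).Nonempty)
    (hc : (steps S).card ≤
      (steps (fib b S v ∩ fib b S v₁)).card + (steps (fib (!b) S u₀)).card + t) :
    (dif v₁ v).card ≤ t + 2 := by
  classical
  set Th := fib b S v ∩ fib b S v₁ with hT
  obtain ⟨x, hx⟩ := hne
  have hp : (part b S).card ≤ (steps Th).card + t := by
    have h1 := card_parts S b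
    have h2 := card_le_part (!b) S u₀
    omega
  have hxc : v.count 0 ≤ x.count 0 + off b := by
    have h1 : x ∈ fib b S v := (Finset.mem_inter.1 hx).1
    rw [mem_fib] at h1
    obtain ⟨w, _, rfl, rfl⟩ := h1
    rw [count_zero_kid, count_zero_kid]
    cases b
    · simp [off]; omega
    · simp [off]; omega
  set J := (dif v₁ v) \ {0, v.count 0} with hJ
  have hJs : ∀ j ∈ J, j ≠ 0 ∧ j ≠ v.count 0 ∧ j < v.count 0 + 1 ∧ lab v j ≠ lab v₁ j := by
    intro j hj
    rw [hJ, Finset.mem_sdiff, dif, Finset.mem_filter, Finset.mem_range] at hj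
    obtain ⟨⟨h1, h2⟩, h3⟩ := hj
    simp only [Finset.mem_insert, Finset.mem_singleton, not_or] at h3
    exact ⟨h3.1, h3.2, h1, h2⟩
  have hJc : J.card ≤ t := by
    have hex : ∀ j : J, ∃ e ∈ part b S, e.1 1 = 2 * (j.1 - off b) + off b ∧
        e ∉ (steps Th).image (phi b v₁) := by
      intro j
      obtain ⟨h1, h2, h3, h5⟩ := hJs j.1 j.2
      have h4 := off_le_one b
      exact dif_exists hT hx h5 (by omega) (by omega)
    choose e he1 he2 he3 using hex
    have h1 : J.card ≤ (part b S \ (steps Th).image (phi b v₁)).card := by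
      rw [← Finset.card_attach]
      apply Finset.card_le_card_of_injOn (fun j => e j)
      · intro j _
        exact Finset.mem_sdiff.2 ⟨he1 j, he3 j⟩
      · intro j _ j' _ h
        have h2 := he2 j
        have h3 := he2 j'
        simp only at h
        rw [h, h3] at h2
        have h5 := (hJs j.1 j.2).1
        have h6 := (hJs j'.1 j'.2).1
        have h4 := off_le_one b
        apply Subtype.ext
        omega
    have hsub1 : ∀ s ∈ steps Th, s ∈ steps (fib b S v₁) := by
      intro s hs
      rw [mem_steps] at hs ⊢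
      obtain ⟨w, hw, h⟩ := hs
      exact ⟨w, (Finset.mem_inter.1 hw).2, h⟩
    have h2 : (steps Th).image (phi b v₁) ⊆ part b S := by
      intro e he
      obtain ⟨s, hs, rfl⟩ := Finset.mem_image.1 he
      exact (phi_steps (hsub1 s hs)).1
    have h3 : ((steps Th).image (phi b v₁)).card = (steps Th).card := by
      apply Finset.card_image_of_injOn
      intro s hs s' hs' h
      exact phi_injOn b S v₁ (hsub1 s hs) (hsub1 s' hs') h
    rw [Finset.card_sdiff_of_subset h2, h3] at h1
    omega
  have h4 : (dif v₁ v).card ≤ J.card + ({0, v.count 0} : Finset ℕ).card := by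
    rw [hJ]
    have := Finset.card_le_card (show dif v₁ v ⊆ (dif v₁ v \ {0, v.count 0}) ∪ {0, v.count 0} by
      intro j hj
      rw [Finset.mem_union, Finset.mem_sdiff]
      tauto)
    exact this.trans (Finset.card_union_le _ _)
  have h5 : ({0, v.count 0} : Finset ℕ).card ≤ 2 := Finset.card_le_two
  omega

theorem dif_rd {v₁ v v' : Wd q} (hc : v.count 0 = v'.count 0)
    (h : (dif v₁ v).image (lab v) = (dif v₁ v').image (lab v')) : rd v 0 = rd v' 0 := by
  apply lab_rd' hc
  have key : ∀ {v v' : Wd q}, v.count 0 = v'.count 0 →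
      (dif v₁ v).image (lab v) = (dif v₁ v').image (lab v') → ∀ j ≤ v.count 0,
      lab v j ≠ lab v₁ j → lab v j = lab v' j := by
    intro v v' hc h j hj h1
    have h2 : lab v j ∈ (dif v₁ v).image (lab v) :=
      Finset.mem_image_of_mem _ (Finset.mem_filter.2 ⟨Finset.mem_range.2 (by omega), h1⟩)
    rw [h] at h2
    obtain ⟨j', hj', h3⟩ := Finset.mem_image.1 h2
    have h4 := congrFun h3 0
    have h5 := (Finset.mem_filter.1 hj').1
    rw [Finset.mem_range] at h5
    rw [lab_at_zero, lab_at_zero, min_eq_left (by omega), min_eq_left hj] at h4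
    rw [← h3, h4]
  intro j hj
  by_cases h1 : lab v j = lab v₁ j
  · by_cases h2 : lab v' j = lab v₁ j
    · rw [h1, h2]
    · exact (key hc.symm h.symm j (by omega) h2).symm
  · exact key hc h j hj h1

theorem few_subsets {α : Type} [DecidableEq α] (U : Finset α) (s : ℕ) (x : ℝ) (h0 : 0 < x)
    (h1 : x ≤ 1) :
    ((U.powerset.filter fun D => D.card ≤ s).card : ℝ) * x ^ s ≤ (1 + x) ^ U.card := by
  rw [add_comm, ← Finset.sum_pow_mul_eq_add_pow x 1 U]
  calc ((U.powerset.filter fun D => D.card ≤ s).card : ℝ) * x ^ s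
      = ∑ _D ∈ U.powerset.filter (fun D => D.card ≤ s), x ^ s := by
        rw [Finset.sum_const, nsmul_eq_mul]
    _ ≤ ∑ D ∈ U.powerset.filter (fun D => D.card ≤ s), x ^ D.card * 1 ^ (U.card - D.card) := by
        apply Finset.sum_le_sum
        intro D hD
        rw [one_pow, mul_one]
        exact pow_le_pow_of_le_one h0.le h1 (Finset.mem_filter.1 hD).2
    _ ≤ ∑ D ∈ U.powerset, x ^ D.card * 1 ^ (U.card - D.card) := by
        apply Finset.sum_le_sum_of_subset_of_nonneg (Finset.filter_subset _ _)
        intro D _ _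
        positivity

theorem alTra (b : Bool) (C : ℕ) (ε : ℝ) (hε : 0 < ε) : ∃ δ K : ℝ, 0 < δ ∧
    ∀ (n t : ℕ) (S T : Finset (Wd q))
    (v₁ u₀ : Wd q), (∀ w ∈ S, w.length ≤ n ∧ Good C 1 w) →
    (∀ v ∈ T, (fib b S v ∩ fib b S v₁).Nonempty ∧
      (steps S).card ≤ (steps (fib b S v ∩ fib b S v₁)).card + (steps (fib (!b) S u₀)).card + t) →
    (t : ℝ) ≤ δ * n → (((T.image fun v => rd v 0).card : ℕ) : ℝ) ≤ K * Real.exp (ε * n) := by
  classical
  set B : ℝ := (((2 * C + 1) ^ q : ℕ) : ℝ) with hB
  have hB0 : 0 < B := by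
    rw [hB]
    exact_mod_cast Nat.pos_of_ne_zero (pow_ne_zero q (by omega))
  set x : ℝ := min 1 (ε / (3 * B)) with hx
  have hx0 : 0 < x := lt_min one_pos (by positivity)
  have hx1 : x ≤ 1 := min_le_left _ _
  have hxB : x * B ≤ ε / 3 := by
    have : x ≤ ε / (3 * B) := min_le_right _ _
    calc x * B ≤ ε / (3 * B) * B := mul_le_mul_of_nonneg_right this hB0.le
      _ = ε / 3 := by field_simp
  set L : ℝ := - Real.log x with hL
  have hL0 : 0 ≤ L := by
    have := Real.log_nonpos hx0.le hx1
    rw [hL]; linarith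
  refine ⟨ε / (3 * (L + 1)), 3 / ε * Real.exp (2 * ε / 3 + 2 * L), by positivity, ?_⟩
  intro n t S T v₁ u₀ hS hT ht
  -- the map to the exceptional data
  set F : Wd q → ℕ × Finset (Lb q) := fun v => (v.count 0, (dif v₁ v).image (lab v)) with hF
  have hcard : (T.image fun v => rd v 0).card ≤ (T.image F).card := by
    have hex : ∀ r : {r // r ∈ T.image fun v => rd v 0}, ∃ v ∈ T, rd v 0 = r.1 := by
      rintro ⟨r, hr⟩
      obtain ⟨v, hv, h⟩ := Finset.mem_image.1 hr
      exact ⟨v, hv, h⟩
    choose g hg1 hg2 using hex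
    rw [← Finset.card_attach]
    apply Finset.card_le_card_of_injOn (fun r => F (g r))
    · intro r _
      exact Finset.mem_image_of_mem _ (hg1 r)
    · intro r _ r' _ h
      simp only [hF, Prod.mk.injEq] at h
      apply Subtype.ext
      rw [← hg2 r, ← hg2 r']
      exact dif_rd h.1 h.2
  have hsub : T.image F ⊆ Finset.range (n + 1) ×ˢ
      ((box C n : Finset (Lb q)).powerset.filter fun D => D.card ≤ t + 2) := by
    intro y hy
    obtain ⟨v, hv, rfl⟩ := Finset.mem_image.1 hy
    obtain ⟨hne, hc⟩ := hT v hv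
    obtain ⟨w, hw, hvw⟩ : ∃ w ∈ S, kid (!b) w = v := by
      obtain ⟨z, hz⟩ := hne
      have h1 : z ∈ fib b S v := (Finset.mem_inter.1 hz).1
      rw [mem_fib] at h1
      obtain ⟨w, h2, h3, _⟩ := h1
      exact ⟨w, h2, h3⟩
    have hvb : Bal C v := by
      rw [← hvw]
      exact good_zero (good_kid (hS w hw).2 (!b))
    have hvl : v.length ≤ n := by
      have h1 := length_kid w
      have h2 := (hS w hw).1
      rw [← hvw]
      cases b
      · simp only [Bool.not_false]; omega
      · simp only [Bool.not_true]; omega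
    rw [hF, Finset.mem_product, Finset.mem_range, Finset.mem_filter, Finset.mem_powerset]
    refine ⟨?_, ?_, ?_⟩
    · have := List.count_le_length (a := (0 : ZMod q)) (l := v)
      simp only
      omega
    · intro N hN
      obtain ⟨j, _, rfl⟩ := Finset.mem_image.1 hN
      obtain ⟨p, hp, h⟩ := lab_prefix v j
      rw [h]
      exact cv_box hvb hp.isInfix hvl
    · exact Finset.card_image_le.trans (card_dif hne hc)
  have h1 : (((T.image fun v => rd v 0).card : ℕ) : ℝ) ≤ (n + 1) *
      (((box C n : Finset (Lb q)).powerset.filter fun D => D.card ≤ t + 2).card : ℝ) := by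
    have := hcard.trans (Finset.card_le_card hsub)
    rw [Finset.card_product, Finset.card_range] at this
    exact_mod_cast this
  have h2 := few_subsets (box C n : Finset (Lb q)) (t + 2) x hx0 hx1
  have h3 : (1 + x) ^ (box C n : Finset (Lb q)).card ≤ Real.exp (ε / 3 * (n + 1)) := by
    calc (1 + x) ^ (box C n : Finset (Lb q)).card
        ≤ (Real.exp x) ^ (box C n : Finset (Lb q)).card := by
          apply pow_le_pow_left₀ (by positivity)
          have := Real.add_one_le_exp x
          linarith
      _ = Real.exp ((box C n : Finset (Lb q)).card * x) := by rw [← Real.exp_nat_mul]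
      _ ≤ Real.exp (ε / 3 * (n + 1)) := by
          apply Real.exp_le_exp.2
          have h4 : ((box C n : Finset (Lb q)).card : ℝ) ≤ (n + 1) * B := by
            rw [hB]
            exact_mod_cast card_box C n
          calc ((box C n : Finset (Lb q)).card : ℝ) * x ≤ ((n + 1) * B) * x :=
                mul_le_mul_of_nonneg_right h4 hx0.le
            _ = (x * B) * (n + 1) := by ring
            _ ≤ ε / 3 * (n + 1) := mul_le_mul_of_nonneg_right hxB (by positivity)
  have h4 : x ^ (t + 2) = Real.exp (-((t + 2) * L)) := by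
    have : x = Real.exp (-L) := by rw [hL, neg_neg, Real.exp_log hx0]
    rw [this, ← Real.exp_nat_mul]
    congr 1
    push_cast
    ring
  have h5 : (((box C n : Finset (Lb q)).powerset.filter fun D => D.card ≤ t + 2).card : ℝ) ≤
      Real.exp (ε / 3 * (n + 1)) * Real.exp ((t + 2) * L) := by
    have h6 := h2.trans h3
    rw [h4, Real.exp_neg] at h6
    rwa [← div_eq_mul_inv, div_le_iff₀ (Real.exp_pos _)] at h6
  have h6 : ((t : ℝ) + 2) * L ≤ ε / 3 * n + 2 * L := by
    have h7 : (t : ℝ) * L ≤ ε / (3 * (L + 1)) * n * L := mul_le_mul_of_nonneg_right ht hL0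
    have h8 : ε / (3 * (L + 1)) * n * L ≤ ε / 3 * n := by
      have h9 : L / (L + 1) ≤ 1 := (div_le_one (by linarith)).2 (by linarith)
      calc ε / (3 * (L + 1)) * n * L = ε / 3 * n * (L / (L + 1)) := by field_simp
        _ ≤ ε / 3 * n * 1 := mul_le_mul_of_nonneg_left h9 (by positivity)
        _ = ε / 3 * n := mul_one _
    linarith
  have h7 : ((n : ℝ) + 1) ≤ 3 / ε * Real.exp (ε / 3 * (n + 1)) := by
    have h8 : ε / 3 * (n + 1) ≤ Real.exp (ε / 3 * (n + 1)) := by
      have := Real.add_one_le_exp (ε / 3 * ((n : ℝ) + 1))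
      linarith
    calc ((n : ℝ) + 1) = 3 / ε * (ε / 3 * (n + 1)) := by field_simp
      _ ≤ _ := mul_le_mul_of_nonneg_left h8 (by positivity)
  calc (((T.image fun v => rd v 0).card : ℕ) : ℝ)
      ≤ (n + 1) *
        (((box C n : Finset (Lb q)).powerset.filter fun D => D.card ≤ t + 2).card : ℝ) := h1
    _ ≤ (3 / ε * Real.exp (ε / 3 * (n + 1))) *
        (Real.exp (ε / 3 * (n + 1)) * Real.exp (ε / 3 * n + 2 * L)) := by
        apply mul_le_mul h7 _ (by positivity) (by positivity)
        refine h5.trans ?_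
        exact mul_le_mul_of_nonneg_left (Real.exp_le_exp.2 h6) (by positivity)
    _ = 3 / ε * Real.exp (2 * ε / 3 + 2 * L) * Real.exp (ε * n) := by
        rw [← Real.exp_add, mul_assoc, mul_assoc, ← Real.exp_add, ← Real.exp_add]
        congr 2
        ring

/-- The combinatorial part of the alpha lemma. -/
theorem alComb (q : ℕ) [NeZero q] : AlComb q where
  inj := alInj
  len := alLen
  lin := alLin
  rcv := alRcv
  two := alTwo
  par := alPar
  tra := alTra

end R4.Al
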