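import Pool.Agent.Work.MP_e3f5d9_al_helper21.TA3

/-!
# Class words at alpha, part 4: from bounded defects to products of good class words
-/

set_option autoImplicit false
set_option linter.unusedSectionVars false

open Finset

namespace R4.Al

/-! ### Two inequalities for blocks -/

section blocks

variable {L : Type} [DecidableEq L] [Fintype L]

open B1pAux

theorem bA_mono (X X' Y : Finset L) (h : X ⊆ X') (hd : Disjoint X' Y) : ∀ (w : List L)
    (f f' : Bool), (f' = true → f = true) → bA X Y f w ≤ bA X' Y f' w := by
  intro w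
  induction w with
  | nil => intro f f' _; simp [bA_nil]
  | cons j w ih =>
    intro f f' hf
    by_cases hY : j ∈ Y
    · rw [bA_Y X Y _ j _ hY, bA_Y X' Y _ j _ hY]
      have := ih true true (by simp)
      cases f <;> cases f' <;> simp at * <;> omega
    · by_cases hX' : j ∈ X'
      · rw [bA_X X' Y _ j _ hY hX']
        by_cases hX : j ∈ X
        · rw [bA_X X Y _ j _ hY hX]
          exact ih false false (by simp)
        · rw [bA_N X Y _ j _ hY hX]
          exact ih f false (by simp)
      · have hX : j ∉ X := fun h' => hX' (h h')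
        rw [bA_N X Y _ j _ hY hX, bA_N X' Y _ j _ hY hX']
        exact ih f f' hf

theorem blk_mono (X X' Y : Finset L) (h : X ⊆ X') (hd : Disjoint X' Y) (w : List L) :
    blk X Y w ≤ blk X' Y w := bA_mono X X' Y h hd w false false (by simp)

/-- Replacement of a set `A` by one of its letters `c`. -/
theorem repl_aux (X Y A : Finset L) (c : L) (hXY : Disjoint X Y) (hXA : Disjoint X A)
    (hYA : Disjoint Y A) (hc : c ∈ A) : ∀ (w : List L) (f1 f2 f3 f4 : Bool),
    (f1 = true → f3 = true ∧ f4 = false) → (f2 = true → f4 = true ∧ f3 = false) →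
    bA (X ∪ A) Y f1 w + bA Aᶜ {c} f2 w ≤ bA (X ∪ {c}) Y f3 w + runsAux A f4 w +
      (if (f3 = true ∧ f1 = false) ∨ (f4 = true ∧ f2 = false) then 1 else 0) := by
  intro w
  induction w with
  | nil => intro f1 f2 f3 f4 _ _; simp [bA_nil]
  | cons j w ih =>
    intro f1 f2 f3 f4 h1 h2
    by_cases hY : j ∈ Y
    · have hA : j ∉ A := Finset.disjoint_left.1 hYA hY
      have hjc : j ∉ ({c} : Finset L) := by
        rw [Finset.mem_singleton]
        rintro rfl
        exact hA hc
      have := ih true false true false (by simp) (by simp)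
      rw [bA_Y (X ∪ A) Y _ j _ hY, bA_X Aᶜ {c} _ j _ hjc (by simpa using hA),
        bA_Y (X ∪ {c}) Y _ j _ hY, rA_out A _ j _ hA]
      cases f1 <;> cases f2 <;> cases f3 <;> cases f4 <;> simp at * <;> omega
    · by_cases hX : j ∈ X
      · have hA : j ∉ A := Finset.disjoint_left.1 hXA hX
        have hjc : j ∉ ({c} : Finset L) := by
          rw [Finset.mem_singleton]
          rintro rfl
          exact hA hc
        have := ih false false false false (by simp) (by simp)
        rw [bA_X (X ∪ A) Y _ j _ hY (by simp [hX]), bA_X Aᶜ {c} _ j _ hjc (by simpa using hA),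
          bA_X (X ∪ {c}) Y _ j _ hY (by simp [hX]), rA_out A _ j _ hA]
        cases f1 <;> cases f2 <;> cases f3 <;> cases f4 <;> simp at * <;> omega
      · by_cases hA : j ∈ A
        · by_cases hjc : j = c
          · subst hjc
            have := ih false true false true (by simp) (by simp)
            rw [bA_X (X ∪ A) Y _ j _ hY (by simp [hA]), bA_Y Aᶜ {j} _ j _ (by simp),
              bA_X (X ∪ {j}) Y _ j _ hY (by simp), rA_in A _ j _ hA]
            cases f1 <;> cases f2 <;> cases f3 <;> cases f4 <;> simp at * <;> omega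
          · have := ih false f2 f3 true (by simp) (fun h => by
              have := h2 h; simp [this.2])
            rw [bA_X (X ∪ A) Y _ j _ hY (by simp [hA]), bA_N Aᶜ {c} _ j _ (by simp [hjc])
              (by simpa using hA), bA_N (X ∪ {c}) Y _ j _ hY (by simp [hX, hjc]), rA_in A _ j _ hA]
            cases f1 <;> cases f2 <;> cases f3 <;> cases f4 <;> simp at * <;> omega
        · have hjc : j ≠ c := by
            rintro rfl
            exact hA hc
          have := ih f1 false f3 false (fun h => by simp [(h1 h).1]) (by simp)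
          rw [bA_N (X ∪ A) Y _ j _ hY (by simp [hX, hA]), bA_X Aᶜ {c} _ j _ (by simp [hjc])
            (by simpa using hA), bA_N (X ∪ {c}) Y _ j _ hY (by simp [hX, hjc]), rA_out A _ j _ hA]
          cases f1 <;> cases f2 <;> cases f3 <;> cases f4 <;> simp at * <;> omega

theorem blk_repl (X Y A : Finset L) (c : L) (hXY : Disjoint X Y) (hXA : Disjoint X A)
    (hYA : Disjoint Y A) (hc : c ∈ A) (w : List L) :
    blk (X ∪ A) Y w + blk Aᶜ {c} w ≤ blk (X ∪ {c}) Y w + runs A w := by
  have := repl_aux X Y A c hXY hXA hYA hc w false false false false (by simp) (by simp)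
  simpa [bA, blk, runs] using this

end blocks

/-! ### Class words of factors -/

section words

variable {q : ℕ} {L : Type} [DecidableEq L] [Fintype L] (ltr : L → Option (ZMod q))

theorem sdA_none (p : Option (ZMod q)) (W : List L) :
    sdA ltr none W = sdA ltr p W ∨ ∃ c, sdA ltr none W = c :: sdA ltr p W := by
  induction W with
  | nil => left; rfl
  | cons j W ih =>
    rw [sdA_cons, sdA_cons]
    cases ltr j with
    | none => exact ih
    | some c =>
      by_cases h : p = some c
      · right
        exact ⟨c, by simp [em, h]⟩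
      · left
        simp [em, h]

theorem sdA_append (X Y : List L) : ∀ p : Option (ZMod q), ∃ p' : Option (ZMod q),
    sdA ltr p (X ++ Y) = sdA ltr p X ++ sdA ltr p' Y := by
  induction X with
  | nil => intro p; exact ⟨p, rfl⟩
  | cons j X ih =>
    intro p
    rw [List.cons_append, sdA_cons, sdA_cons]
    cases ltr j with
    | none => exact ih p
    | some c =>
      by_cases h : p = some c
      · obtain ⟨p', hp'⟩ := ih p
        exact ⟨p', by simp [em, h]; rw [← h]; exact hp'⟩
      · obtain ⟨p', hp'⟩ := ih (some c)
        exact ⟨p', by simp [em, h]; exact hp'⟩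

theorem sdA_split : ∀ (W : List L) (p : Option (ZMod q)) (u v : List (ZMod q)),
    sdA ltr p W = u ++ v → ∃ (X Y : List L) (p' : Option (ZMod q)), W = X ++ Y ∧
      sdA ltr p X = u ∧ sdA ltr p' Y = v := by
  intro W
  induction W with
  | nil =>
    intro p u v h
    have h' : ([] : List (ZMod q)) = u ++ v := h
    obtain ⟨rfl, rfl⟩ := List.append_eq_nil_iff.1 h'.symm
    exact ⟨[], [], none, rfl, rfl, rfl⟩
  | cons j W ih =>
    intro p u v h
    cases u with
    | nil => exact ⟨[], j :: W, p, rfl, rfl, h⟩
    | cons a u =>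
      rw [sdA_cons] at h
      cases hl : ltr j with
      | none =>
        rw [hl] at h
        obtain ⟨X, Y, p', rfl, h2, h3⟩ := ih p (a :: u) v h
        exact ⟨j :: X, Y, p', rfl, by rw [sdA_cons, hl]; exact h2, h3⟩
      | some c =>
        rw [hl] at h
        by_cases hp : p = some c
        · simp only [em, if_pos hp] at h
          obtain ⟨X, Y, p', rfl, h2, h3⟩ := ih p (a :: u) v h
          exact ⟨j :: X, Y, p', rfl, by rw [sdA_cons, hl]; simp only [em, if_pos hp]; exact h2, h3⟩
        · simp only [em, if_neg hp, List.cons_append, List.cons.injEq] at h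
          obtain ⟨rfl, h⟩ := h
          obtain ⟨X, Y, p', rfl, h2, h3⟩ := ih (some c) u v h
          exact ⟨j :: X, Y, p', rfl, by
            rw [sdA_cons, hl]; simp only [em, if_neg hp]; rw [h2], h3⟩

theorem sdA_factor (W : List L) (p : Option (ZMod q)) (u : List (ZMod q))
    (h : u <:+: sdA ltr p W) : ∃ (W' : List L) (p' : Option (ZMod q)), W' <:+: W ∧
      sdA ltr p' W' = u := by
  obtain ⟨s, t, hst⟩ := h
  obtain ⟨X, Y, p', rfl, -, h2⟩ := sdA_split ltr W p s (u ++ t) (by
    rw [← List.append_assoc]; exact hst.symm)
  obtain ⟨Y', Z, p'', rfl, h3, -⟩ := sdA_split ltr Y p' u t h2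
  refine ⟨Y', p', ⟨X, Z, by simp⟩, h3⟩

open B1pAux in
/-- The number of letters of a class. -/
theorem count_sdA (S : Finset L) (hS : ∀ j, (ltr j).isSome ↔ j ∈ S) (a : ZMod q) (x : L)
    (hx : ∀ j, ltr j = some a ↔ j = x) : ∀ (W : List L) (p : Option (ZMod q)),
    (sdA ltr p W).count a = bA (S.erase x) {x} (decide (p = some a)) W := by
  intro W
  induction W with
  | nil => intro p; simp [sdA, bA_nil]
  | cons j W ih =>
    intro p
    rw [sdA_cons]
    cases hl : ltr j with
    | none =>
      have h1 : j ∉ S := fun h => by simpa [hl] using (hS j).2 h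
      have h2 : j ≠ x := fun h => by simpa [hl] using (hx j).2 h
      rw [bA_N _ _ _ j _ (by simpa using h2) (by simp [h1])]
      exact ih p
    | some c =>
      have h1 : j ∈ S := (hS j).1 (by simp [hl])
      by_cases hca : c = a
      · subst hca
        have h2 : j = x := (hx j).1 hl
        subst h2
        rw [bA_Y _ _ _ j _ (by simp)]
        by_cases hp : p = some c
        · simp only [em, if_pos hp, ih p]
          simp [hp]
        · simp only [em, if_neg hp, List.count_cons_self, ih (some c)]
          simp [hp]
          omega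
      · have h2 : j ≠ x := fun h => by
          have := (hx j).2 h
          rw [hl] at this
          exact hca (by simpa using this)
        rw [bA_X _ _ _ j _ (by simpa using h2) (by simp [h1, h2])]
        by_cases hp : p = some c
        · simp only [em, if_pos hp, ih p]
          simp [hp, hca]
        · simp only [em, if_neg hp, List.count_cons_of_ne hca, ih (some c)]
          simp [hca]

end words

/-! ### The induction -/

section main

variable {q : ℕ} {L : Type} [DecidableEq L] [Fintype L] (D : KS L)
  (ltr : L → Option (ZMod q)) (y : L)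

/-- A class of words (the nodes with `j` generations below). -/
structure Nodes (S : Finset L) (x : ZMod q → L) (C : ℕ) (N : ℕ → List L → Prop) : Prop where
  factor : ∀ j W W', N j W → W' <:+: W → N j W'
  child : ∀ j W b, N (j + 1) W → N j (D.sec b W)
  zero : ∀ j W, N (j + 1) W → N j W
  n1 : ∀ W, N 0 W → ∀ a, runs {x a} W ≤ runs {D.o} W + C
  n2 : ∀ W, N 0 W → ∀ a, runs {D.o} W ≤ blk (S.erase (x a)) {x a} W + C
  n3 : ∀ W, N 0 W → runs {D.o} W ≤ blk {y} {D.o} W + C
  n4 : ∀ W, N 0 W → runs {D.o} W ≤ rr {D.o} W + C

theorem fc_good (C k : ℕ) : FC (fun w : List (ZMod q) => Good C k w) := by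
  have hkid : ∀ (b : Bool) (u v : List (ZMod q)), u <:+: v → ∃ b', kid b' u <:+: kid b v := by
    rintro b u v ⟨s, t, rfl⟩
    refine ⟨fl b s, kid b s, kid (fl b (s ++ u)) t, ?_⟩
    rw [kid_append, kid_append]
  have hkid' : ∀ (b : Bool) (u v : List (ZMod q)), u <:+: v → ∃ b', kid b u <:+: kid b' v := by
    intro b u v h
    obtain ⟨b1, h1⟩ := hkid true u v h
    obtain ⟨b2, h2⟩ := hkid false u v h
    obtain ⟨s, t, rfl⟩ := h
    have e : ∀ b, kid b (s ++ u ++ t) = kid b s ++ kid (fl b s) u ++ kid (fl b (s ++ u)) t := by
      intro b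
      rw [kid_append, kid_append]
    have hfl : fl (!(fl true s)) s = false := by unfold fl; cases decide (s.count 1 % 2 = 1) <;> rfl
    by_cases hb : fl true s = b
    · exact ⟨true, kid true s, kid (fl true (s ++ u)) t, by rw [e, hb]⟩
    · refine ⟨false, kid false s, kid (fl false (s ++ u)) t, ?_⟩
      have : fl false s = b := by
        unfold fl at hb ⊢
        revert hb
        cases decide (s.count 1 % 2 = 1) <;> cases b <;> simp
      rw [e, this]
  have hL : ∀ (u : List Bool) (v w : List (ZMod q)), v <:+: w →
      ∃ u' : List Bool, u'.length = u.length ∧ kidL u v <:+: kidL u' w := by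
    intro u
    induction u with
    | nil => intro v w h; exact ⟨[], rfl, h⟩
    | cons b u ih =>
      intro v w h
      obtain ⟨b', hb'⟩ := hkid' b v w h
      obtain ⟨u', h1, h2⟩ := ih _ _ hb'
      exact ⟨b' :: u', by simp [h1], h2⟩
  intro v w h hg u hu F hF a b
  obtain ⟨u', h1, h2⟩ := hL u v w h
  exact hg u' (by omega) F (hF.trans h2) a b

theorem good_short {C : ℕ} (hC : 1 ≤ C) (k : ℕ) (w : List (ZMod q)) (hw : w.length ≤ 1) :
    Good C k w := by
  have hL : ∀ (u : List Bool) (w : List (ZMod q)), (kidL u w).length ≤ w.length := by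
    intro u
    induction u with
    | nil => intro w; exact le_rfl
    | cons b u ih =>
      intro w
      refine (ih _).trans ?_
      have := length_kid w
      cases b <;> omega
  intro u _ F hF a b
  have h1 := hF.length_le
  have h2 := hL u w
  have h3 : F.count a ≤ F.length := List.count_le_length
  omega

theorem kg_good {C k : ℕ} {w : List (ZMod q)} (h1 : Bal C w)
    (h2 : KG (fun w => Good C k w) w) : Good C (k + 1) w := by
  intro u hu
  cases u with
  | nil => exact h1
  | cons b u =>
    rw [List.length_cons] at hu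
    cases b
    · exact h2.2 u (by omega)
    · exact h2.1 u (by omega)

variable {D ltr y}

theorem cut_gd (H : Leaf D q ltr y) {C : ℕ} (hC : 1 ≤ C) (k n : ℕ) (P : List L)
    (hP : gd D ltr y St.A P)
    (h1 : ∀ b, Cut n (fun w => Good C k w) (sd ltr (D.sec b P))) (b : Bool) :
    Cut (n + 1) (fun w => Good C k w) (kid b (sd ltr P)) := by
  have hfc : FC (fun w : List (ZMod q) => Good C k w) := fc_good C k
  have hz : Good C k ([0] : List (ZMod q)) := good_short hC k _ (by simp)
  obtain ⟨h2, -, -⟩ := struct D ltr y H P
  obtain ⟨h3, h4⟩ := h2 none (by simp) hP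
  have key : ∀ X Y : List (ZMod q), rel X Y → Cut n (fun w => Good C k w) Y →
      Cut (n + 1) (fun w => Good C k w) X := by
    intro X Y hXY hY
    rcases hXY with rfl | rfl
    · exact hY.mono (Nat.le_succ _)
    · exact hY.append (Cut.one hz)
  cases b with
  | false =>
    refine key _ _ h4 ?_
    have := h1 false
    unfold sd at this
    rcases sdA_none ltr (some 0) (D.sec false P) with h | ⟨c, h⟩
    · rw [h] at this
      exact this
    · rw [h] at this
      exact Cut.tail hfc this
  | true =>
    refine key _ _ h3 ?_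
    exact h1 true

/-- A list of pieces. -/
theorem cut_flatten {G : List (ZMod q) → Prop} (hG : FC G) {n : ℕ} : ∀ ps : List (List L),
    (∀ p ∈ ps, Cut n G (sd ltr p)) → Cut (n * ps.length) G (sd ltr ps.flatten) := by
  intro ps
  induction ps with
  | nil => intro _; exact Cut.nil _
  | cons p ps ih =>
    intro h
    have h1 := ih (fun p' hp' => h p' (List.mem_cons_of_mem _ hp'))
    have h2 := h p List.mem_cons_self
    rw [List.flatten_cons]
    obtain ⟨p', hp'⟩ := sdA_append ltr p ps.flatten none
    have h3 : Cut (n * ps.length) G (sdA ltr p' ps.flatten) := by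
      unfold sd at h1
      rcases sdA_none ltr p' ps.flatten with h | ⟨c, h⟩
      · rw [h] at h1
        exact h1
      · rw [h] at h1
        exact Cut.tail hG h1
    unfold sd at h2 ⊢
    rw [hp']
    have := h2.append h3
    refine this.mono ?_
    rw [List.length_cons, Nat.mul_succ]
    omega

theorem main_cut (H : Leaf D q ltr y) (S : Finset L) (hS : ∀ j, (ltr j).isSome ↔ j ∈ S)
    (x : ZMod q → L) (hx : ∀ a j, ltr j = some a ↔ j = x a) {C : ℕ} {N : ℕ → List L → Prop}
    (hN : Nodes D y S x C N) (j : ℕ) :
    ∃ c : ℕ, ∀ W, N j W → Cut c (fun w => Good (2 * C + 1) j w) (sd ltr W) := by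
  have hN0 : ∀ j W, N j W → N 0 W := by
    intro j
    induction j with
    | zero => intro W h; exact h
    | succ j ih => intro W h; exact ih W (hN.zero j W h)
  have hbal : ∀ j W, N j W → Bal (2 * C + 1) (sd ltr W) := by
    intro j W hW F hF a b
    obtain ⟨W', p', h1, rfl⟩ := sdA_factor ltr W none F hF
    have hW' := hN0 j W' (hN.factor j W W' hW h1)
    rw [count_sdA ltr S hS a (x a) (hx a), count_sdA ltr S hS b (x b) (hx b)]
    have e1 := hN.n1 W' hW' a
    have e2 := hN.n2 W' hW' b
    have e3 : B1pAux.bA (S.erase (x a)) {x a} (decide (p' = some a)) W' ≤ runs {x a} W' := by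
      have h3 : B1pAux.bA (S.erase (x a)) {x a} (decide (p' = some a)) W' ≤
          B1pAux.bA (S.erase (x a)) {x a} false W' := by
        cases decide (p' = some a)
        · exact le_rfl
        · exact (B1pAux.bA_le _ _ _).1
      refine h3.trans ?_
      have h4 := bA_mono (S.erase (x a)) ({x a}ᶜ) {x a} (by
        intro z hz
        rw [Finset.mem_erase] at hz
        simpa using hz.1) disjoint_compl_left W' false false (by simp)
      refine h4.trans ?_
      have h5 := B1pAux.blk_compl {x a} W'
      exact h5.le
    have e4 : blk (S.erase (x b)) {x b} W' ≤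
        B1pAux.bA (S.erase (x b)) {x b} (decide (p' = some b)) W' + 1 := by
      have h3 := B1pAux.bA_le (S.erase (x b)) {x b} W'
      have h4 : blk (S.erase (x b)) {x b} W' = B1pAux.bA (S.erase (x b)) {x b} false W' := rfl
      rw [h4]
      cases decide (p' = some b)
      · omega
      · exact h3.2
    omega
  have hx1 : x 1 = D.o := ((hx 1 D.o).1 H.k1).symm
  induction j with
  | zero =>
    refine ⟨1, fun W hW => Cut.one ?_⟩
    intro u hu
    cases u with
    | nil => exact hbal 0 W hW
    | cons b u => simp at hu
  | succ j ih =>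
    obtain ⟨c, hc⟩ := ih
    refine ⟨((c + 1) + (c + 1) + 1) * (1 + 3 * C), fun W hW => ?_⟩
    obtain ⟨p, ps, h1, h2, h3, h4⟩ := decomp D ltr y W St.A
    have h5 : ps.length ≤ 3 * C := by
      refine h4.trans ?_
      have hW0 := hN0 _ W hW
      have e1 := nb_le D ltr y (S.erase D.o) (fun j hj => by
        rw [hS j, Finset.mem_erase]
        simp [hj]) H.yo W
      have e2 := hN.n2 W hW0 1
      rw [hx1] at e2
      have e3 := hN.n3 W hW0
      have e4 := hN.n4 W hW0
      omega
    have h6 : ∀ p' ∈ p :: ps, Cut ((c + 1) + (c + 1) + 1)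
        (fun w => Good (2 * C + 1) (j + 1) w) (sd ltr p') := by
      intro p' hp'
      have hgd : gd D ltr y St.A p' := by
        rcases List.mem_cons.1 hp' with rfl | hp'
        · exact h2
        · exact h3 p' hp'
      have hfac : p' <:+: W := by
        have e : W = (p :: ps).flatten := by rw [List.flatten_cons]; exact h1
        rw [e]
        obtain ⟨s, t, hst⟩ := List.append_of_mem hp'
        rw [hst]
        exact ⟨s.flatten, t.flatten, by simp⟩
      have hNp : N (j + 1) p' := hN.factor _ W p' hW hfac
      have h7 : ∀ b, Cut (c + 1) (fun w => Good (2 * C + 1) j w) (kid b (sd ltr p')) :=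
        fun b => cut_gd H (by omega) j c p' hgd (fun b => hc _ (hN.child j p' b hNp)) b
      have h8 := kids (fc_good (2 * C + 1) j) (good_short (by omega) j [] (by simp))
        (h7 true) (h7 false)
      obtain ⟨qs, h9, h10, h11⟩ := h8
      refine ⟨qs, h9, h10, fun w hw => ?_⟩
      refine kg_good ?_ (h11 w hw)
      intro F hF
      refine hbal (j + 1) p' hNp F (hF.trans ?_)
      rw [← h9]
      obtain ⟨s, t, hst⟩ := List.append_of_mem hw
      rw [hst]
      exact ⟨s.flatten, t.flatten, by simp⟩
    have h7 := cut_flatten (ltr := ltr) (fc_good (q := q) (2 * C + 1) (j + 1)) (p :: ps) h6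
    rw [List.flatten_cons, ← h1] at h7
    refine h7.mono ?_
    apply Nat.mul_le_mul_left
    rw [List.length_cons]
    omega

end main

end R4.Al
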