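import Pool.Agent.Work.MP_e3f5d9_al.T0
import Pool.Agent.Work.MP_e3f5d9_al.B1
import Pool.Agent.Work.MP_e3f5d9_al.B1p
import Pool.Agent.Work.MP_e3f5d9_al_helper21.ALk

/-!
# Class words at alpha, part 1: the children of a good word

`sdA ltr p W`: the word of the classes of the leaf letters `c_1, ..., c_q` of `W`, without
repetitions; `p` is the class before.
-/

set_option autoImplicit false
set_option linter.unusedSectionVars false

open Finset

namespace R4.Al

variable {q : ℕ} {L : Type} [DecidableEq L]

/-- Classes of the leaf letters, repetitions removed; `p` is the last class before. -/
def sdA (ltr : L → Option (ZMod q)) : Option (ZMod q) → List L → List (ZMod q)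
  | _, [] => []
  | p, j :: W => match ltr j with
    | none => sdA ltr p W
    | some c => if p = some c then sdA ltr p W else c :: sdA ltr (some c) W

/-- The class word. -/
def sd (ltr : L → Option (ZMod q)) (W : List L) : List (ZMod q) := sdA ltr none W

/-- The leaf letters at alpha: `c_1 = o, ..., c_q` of classes `1, ..., q`, and `y = c_(q+1)`. -/
structure Leaf [Fintype L] (D : KS L) (q : ℕ) (ltr : L → Option (ZMod q)) (y : L) : Prop where
  k1 : ltr D.o = some 1
  k2 : ∀ j, j ≠ D.o → (D.pre true j).bind ltr = (ltr j).map (· - 1)
  k3 : ∀ j, j ≠ D.o → (D.pre false j).bind ltr = if j = y then some 0 else none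
  k4 : ∀ j, ltr j = some 1 → j = D.o
  yo : y ≠ D.o

/-- One step of the class word. -/
def em (p s : Option (ZMod q)) (f : Option (ZMod q) → List (ZMod q)) : List (ZMod q) :=
  match s with
  | none => f p
  | some c => if p = some c then f p else c :: f (some c)

theorem sdA_cons (ltr : L → Option (ZMod q)) (p : Option (ZMod q)) (j : L) (W : List L) :
    sdA ltr p (j :: W) = em p (ltr j) (fun p' => sdA ltr p' W) := by
  rw [sdA]
  rfl

theorem sdA_sec [Fintype L] (D : KS L) (ltr : L → Option (ZMod q)) (p : Option (ZMod q))
    (b : Bool) (j : L) (hj : j ≠ D.o) (W : List L) :
    sdA ltr p (D.sec b (j :: W)) = em p ((D.pre b j).bind ltr) (fun p' => sdA ltr p' (D.sec b W)) := by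
  cases hp : D.pre b j with
  | none => rw [B1Aux.sec_none D hj hp]; simp [em]
  | some i => rw [B1Aux.sec_some D hj hp, sdA_cons]; simp

/-- Equality up to a zero at the end. -/
def rel (X Y : List (ZMod q)) : Prop := X = Y ∨ X = Y ++ [0]

theorem rel_cons (c : ZMod q) {X Y : List (ZMod q)} (h : rel X Y) : rel (c :: X) (c :: Y) := by
  rcases h with rfl | rfl
  · exact Or.inl rfl
  · exact Or.inr rfl

/-- States: before the first `o`; inside an `o`-run (flag: odd); after an `o`-run (flags: a leaf
letter was read, `y` was read). -/
inductive St where
  | A : St
  | B (par : Bool) : St
  | C (fs fy : Bool) : St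

variable [Fintype L] (D : KS L) (ltr : L → Option (ZMod q)) (y : L)

/-- Good words. -/
def gd : St → List L → Prop
  | _, [] => True
  | St.A, j :: W => if j = D.o then gd (St.B true) W else gd St.A W
  | St.B par, j :: W => if j = D.o then gd (St.B !par) W else
      par = true ∧ gd (St.C (ltr j).isSome (decide (j = y))) W
  | St.C fs fy, j :: W => if j = D.o then fs = true ∧ fy = true ∧ gd (St.B true) W else
      gd (St.C (fs || (ltr j).isSome) (fy || decide (j = y))) W

theorem struct (H : Leaf D q ltr y) : ∀ P : List L,
    (∀ r : Option (ZMod q), r ≠ some 1 → gd D ltr y St.A P →
      rel (kid true (sdA ltr r P)) (sdA ltr (r.map (· - 1)) (D.sec true P)) ∧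
      rel (kid false (sdA ltr r P)) (sdA ltr (some 0) (D.sec false P))) ∧
    (∀ (par : Bool) (e : Option (ZMod q)), e ≠ some 0 → gd D ltr y (St.B par) P →
      rel (0 :: kid false (sdA ltr (some 1) P)) (sdA ltr e (D.sec (!par) P)) ∧
      rel (kid true (sdA ltr (some 1) P)) (sdA ltr (some 0) (D.sec par P))) ∧
    (∀ (fs fy : Bool) (c : ZMod q) (e : Option (ZMod q)), (c = 1 ↔ fs = false) → e ≠ some 0 →
      gd D ltr y (St.C fs fy) P →
      (if fy = true then rel (kid false (sdA ltr (some c) P)) (sdA ltr (some 0) (D.sec false P))
        else rel (0 :: kid false (sdA ltr (some c) P)) (sdA ltr e (D.sec false P))) ∧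
      rel (kid true (sdA ltr (some c) P)) (sdA ltr (some (c - 1)) (D.sec true P))) := by
  intro P
  induction P with
  | nil =>
    have hr : ∀ b : Bool, D.sec b [] = [] := B1Aux.sec_nil D
    refine ⟨fun r _ _ => ?_, fun par e _ _ => ?_, fun fs fy c e _ _ _ => ?_⟩
    · simp [hr, sdA, rel]
    · simp [hr, sdA, rel]
    · simp [hr, sdA, rel]
  | cons j P ih =>
    obtain ⟨ihA, ihB, ihC⟩ := ih
    by_cases hj : j = D.o
    · subst hj
      refine ⟨fun r hr hg => ?_, fun par e he hg => ?_, fun fs fy c e hc he hg => ?_⟩
      · simp only [gd, if_true] at hg
        rw [sdA_cons, H.k1, B1Aux.sec_o, B1Aux.sec_o]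
        simp only [em, if_neg hr, kid_true_cons, kid_false_cons, Bool.not_true, Bool.not_false]
        have h0 : r.map (· - 1) ≠ some 0 := by
          intro h
          apply hr
          cases r with
          | none => simp at h
          | some x => simpa [sub_eq_zero] using h
        have := ihB true _ h0 hg
        simpa using this
      · simp only [gd, if_true] at hg
        rw [sdA_cons, H.k1, B1Aux.sec_o, B1Aux.sec_o]
        simp only [em, if_true]
        have := ihB (!par) e he hg
        simpa using this
      · simp only [gd, if_true] at hg
        obtain ⟨rfl, rfl, hg⟩ := hg
        have hc1 : c ≠ 1 := by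
          intro h
          simpa using hc.1 h
        rw [sdA_cons, H.k1, B1Aux.sec_o, B1Aux.sec_o]
        have hc2 : (some c : Option (ZMod q)) ≠ some 1 := by simpa using hc1
        simp only [em, if_neg hc2, kid_true_cons, kid_false_cons, Bool.not_true, Bool.not_false]
        have h0 : (some (c - 1) : Option (ZMod q)) ≠ some 0 := by
          simpa [sub_eq_zero] using hc1
        have := ihB true _ h0 hg
        simpa using this.symm
    · refine ⟨fun r hr hg => ?_, fun par e he hg => ?_, fun fs fy c e hc he hg => ?_⟩
      · simp only [gd, if_neg hj] at hg
        rw [sdA_cons, sdA_sec D ltr _ _ j hj, sdA_sec D ltr _ _ j hj, H.k2 j hj, H.k3 j hj]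
        constructor
        · cases hl : ltr j with
          | none => simpa [em] using (ihA r hr hg).1
          | some c =>
            have hc : c ≠ 1 := fun h => hj (H.k4 j (by rw [hl, h]))
            by_cases hrc : r = some c
            · subst hrc
              simpa [em] using (ihA (some c) hr hg).1
            · have h1 : r.map (· - 1) ≠ some (c - 1) := by
                intro h
                apply hrc
                cases r with
                | none => simp at h
                | some x => simpa using h
              have h2 : (some c : Option (ZMod q)) ≠ some 1 := by simpa using hc
              simp only [em, if_neg hrc, Option.map_some, if_neg h1, kid_true_cons]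
              simpa [hc] using rel_cons (c - 1) (ihA (some c) h2 hg).1
        · have e1 : em (some 0) (if j = y then some 0 else none)
              (fun p' => sdA ltr p' (D.sec false P)) = sdA ltr (some 0) (D.sec false P) := by
            by_cases hy : j = y
            · simp [em, hy]
            · simp [em, hy]
          rw [e1]
          cases hl : ltr j with
          | none => simpa [em] using (ihA r hr hg).2
          | some c =>
            have hc : c ≠ 1 := fun h => hj (H.k4 j (by rw [hl, h]))
            by_cases hrc : r = some c
            · subst hrc
              simpa [em] using (ihA (some c) hr hg).2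
            · have h2 : (some c : Option (ZMod q)) ≠ some 1 := by simpa using hc
              simp only [em, if_neg hrc, kid_false_cons]
              simpa [hc] using (ihA (some c) h2 hg).2
      · simp only [gd, if_neg hj] at hg
        obtain ⟨rfl, hg⟩ := hg
        rw [sdA_cons, sdA_sec D ltr _ _ j hj, sdA_sec D ltr _ _ j hj, Bool.not_true, H.k2 j hj,
          H.k3 j hj]
        cases hl : ltr j with
        | none =>
          rw [hl] at hg
          have h := ihC false (decide (j = y)) 1 e (by simp) he (by simpa using hg)
          constructor
          · by_cases hy : j = y
            · simp only [em, hy, if_true, if_neg he]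
              simp only [hy, decide_true, if_true] at h
              exact rel_cons 0 h.1
            · simp only [em, hy, if_false]
              simp only [hy, decide_false] at h
              simpa using h.1
          · simpa [em] using h.2
        | some c =>
          have hc : c ≠ 1 := fun h => hj (H.k4 j (by rw [hl, h]))
          rw [hl] at hg
          have h := ihC true (decide (j = y)) c e (by simp [hc]) he (by simpa using hg)
          have h2 : (some 1 : Option (ZMod q)) ≠ some c := by simpa using hc.symm
          have h3 : (some 0 : Option (ZMod q)) ≠ some (c - 1) := by
            intro h4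
            rw [Option.some.injEq] at h4
            exact hc (sub_eq_zero.1 h4.symm)
          constructor
          · by_cases hy : j = y
            · simp only [em, hy, if_true, if_neg he, if_neg h2, kid_false_cons]
              simp only [hy, decide_true, if_true] at h
              simpa [hc] using rel_cons 0 h.1
            · simp only [em, hy, if_false, if_neg h2, kid_false_cons]
              simp only [hy, decide_false] at h
              simpa [hc] using h.1
          · simp only [em, if_neg h2, kid_true_cons, Option.map_some, if_neg h3]
            simpa [hc] using rel_cons (c - 1) h.2
      · simp only [gd, if_neg hj] at hg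
        rw [sdA_cons, sdA_sec D ltr _ _ j hj, sdA_sec D ltr _ _ j hj, sdA_sec D ltr _ _ j hj,
          H.k2 j hj, H.k3 j hj]
        cases hl : ltr j with
        | none =>
          rw [hl] at hg
          have h := ihC fs (fy || decide (j = y)) c e hc he (by simpa using hg)
          constructor
          · by_cases hy : j = y
            · cases fy
              · simp only [em, hy, if_true, if_neg he]
                simp only [hy, decide_true, Bool.or_true, if_true] at h
                simpa using rel_cons 0 h.1
              · simp only [em, hy, if_true]
                simpa [hy] using h.1
            · simp only [em, hy, if_false]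
              simp only [hy, decide_false, Bool.or_false] at h
              simpa using h.1
          · simpa [em] using h.2
        | some c' =>
          have hc' : c' ≠ 1 := fun h => hj (H.k4 j (by rw [hl, h]))
          rw [hl] at hg
          have h := ihC true (fy || decide (j = y)) c' e (by simp [hc']) he (by simpa using hg)
          by_cases hcc : c = c'
          · subst hcc
            constructor
            · by_cases hy : j = y
              · cases fy
                · simp only [em, hy, if_true, if_neg he]
                  simp only [hy, decide_true, Bool.or_true, if_true] at h
                  simpa using rel_cons 0 h.1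
                · simp only [em, hy, if_true]
                  simpa [hy] using h.1
              · simp only [em, hy, if_false, if_true]
                simp only [hy, decide_false, Bool.or_false] at h
                simpa using h.1
            · simpa [em] using h.2
          · have h2 : (some c : Option (ZMod q)) ≠ some c' := by simpa using hcc
            have h3 : (some (c - 1) : Option (ZMod q)) ≠ some (c' - 1) := by
              simpa using hcc
            constructor
            · by_cases hy : j = y
              · cases fy
                · simp only [em, hy, if_true, if_neg he, if_neg h2, kid_false_cons]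
                  simp only [hy, decide_true, Bool.or_true, if_true] at h
                  simpa [hc'] using rel_cons 0 h.1
                · simp only [em, hy, if_true, if_neg h2, kid_false_cons]
                  simpa [hy, hc'] using h.1
              · simp only [em, hy, if_false, if_neg h2, kid_false_cons]
                simp only [hy, decide_false, Bool.or_false] at h
                simpa [hc'] using h.1
            · simp only [em, if_neg h2, kid_true_cons, Option.map_some, if_neg h3]
              simpa [hc'] using rel_cons (c' - 1) h.2

end R4.Al
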