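import Pool.Agent.Work.MP_e3f5d9_al_helper21.TA1

/-!
# Class words at alpha, part 2: cutting words
-/

set_option autoImplicit false

open Finset

namespace R4.Al

/-- The word `w` is a product of at most `n` words of the class `G`. -/
def Cut {α : Type} (n : ℕ) (G : List α → Prop) (w : List α) : Prop :=
  ∃ ps : List (List α), ps.flatten = w ∧ ps.length ≤ n ∧ ∀ p ∈ ps, G p

/-- Closed under factors. -/
def FC {α : Type} (G : List α → Prop) : Prop := ∀ u v : List α, u <:+: v → G v → G u

section cut

variable {α : Type} {G : List α → Prop}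

theorem Cut.mono {n m : ℕ} {w : List α} (h : Cut n G w) (hnm : n ≤ m) : Cut m G w := by
  obtain ⟨ps, h1, h2, h3⟩ := h
  exact ⟨ps, h1, h2.trans hnm, h3⟩

theorem Cut.nil (n : ℕ) : Cut n G [] := ⟨[], rfl, Nat.zero_le _, by simp⟩

theorem Cut.one {w : List α} (h : G w) : Cut 1 G w := ⟨[w], by simp, by simp, by simpa using h⟩

theorem Cut.append {n m : ℕ} {u v : List α} (h : Cut n G u) (h' : Cut m G v) :
    Cut (n + m) G (u ++ v) := by
  obtain ⟨ps, h1, h2, h3⟩ := h
  obtain ⟨qs, h4, h5, h6⟩ := h'
  refine ⟨ps ++ qs, by rw [List.flatten_append, h1, h4], by rw [List.length_append]; omega, ?_⟩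
  intro p hp
  rcases List.mem_append.1 hp with hp | hp
  · exact h3 p hp
  · exact h6 p hp

theorem Cut.tail (hG : FC G) {n : ℕ} {c : α} {w : List α} (h : Cut n G (c :: w)) :
    Cut n G w := by
  obtain ⟨ps, h1, h2, h3⟩ := h
  induction ps generalizing n with
  | nil => simp at h1
  | cons p ps ih =>
    cases p with
    | nil =>
      rw [List.length_cons] at h2
      obtain ⟨m, rfl⟩ : ∃ m, n = m + 1 := ⟨n - 1, by omega⟩
      exact (ih (n := m) (by simpa using h1) (by omega)
        (fun p hp => h3 p (List.mem_cons_of_mem _ hp))).mono (Nat.le_succ _)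
    | cons x p =>
      simp only [List.flatten_cons, List.cons_append, List.cons.injEq] at h1
      obtain ⟨rfl, h1⟩ := h1
      refine ⟨p :: ps, by simpa using h1, by simpa using h2, ?_⟩
      intro p' hp'
      rcases List.mem_cons.1 hp' with rfl | hp'
      · exact hG _ _ (List.suffix_cons x p').isInfix (h3 _ List.mem_cons_self)
      · exact h3 p' (List.mem_cons_of_mem _ hp')

theorem Cut.suffix (hG : FC G) {n : ℕ} {u v : List α} (h : Cut n G (u ++ v)) :
    Cut n G v := by
  induction u with
  | nil => exact h
  | cons c u ih => exact ih (Cut.tail hG h)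

theorem Cut.pre_of (hG : FC G) {n : ℕ} {u v : List α} (h : Cut n G (u ++ v)) :
    Cut n G u := by
  obtain ⟨ps, h1, h2, h3⟩ := h
  induction ps generalizing n u with
  | nil =>
    have : u = [] := (List.append_eq_nil_iff.1 h1.symm).1
    subst this
    exact Cut.nil _
  | cons p ps ih =>
    rw [List.length_cons] at h2
    obtain ⟨m, rfl⟩ : ∃ m, n = m + 1 := ⟨n - 1, by omega⟩
    rw [List.flatten_cons] at h1
    rcases List.append_eq_append_iff.1 h1 with ⟨a, h4, h5⟩ | ⟨c, h4, h5⟩
    · subst h4
      have h6 := ih (n := m) h5 (by omega) (fun p hp => h3 p (List.mem_cons_of_mem _ hp))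
      have h7 := (Cut.one (h3 p List.mem_cons_self)).append h6
      exact h7.mono (by omega)
    · refine (Cut.one ?_).mono (by omega)
      exact hG u p (by rw [h4]; exact (List.prefix_append _ _).isInfix) (h3 p List.mem_cons_self)

theorem Cut.factor (hG : FC G) {n : ℕ} {u v : List α} (h : Cut n G v) (hu : u <:+: v) :
    Cut n G u := by
  obtain ⟨s, t, rfl⟩ := hu
  rw [List.append_assoc] at h
  exact Cut.pre_of hG (Cut.suffix hG h)

end cut

section kids

variable {q : ℕ} {G : List (ZMod q) → Prop}

theorem first_piece (c : ZMod q) (w : List (ZMod q)) : ∀ l : List (List (ZMod q)),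
    l.flatten = c :: w → (∀ p ∈ l, G p) → ∃ (p : List (ZMod q)) (l' : List (List (ZMod q))),
      w = p ++ l'.flatten ∧ G (c :: p) ∧ (∀ p ∈ l', G p) ∧ l'.length + 1 ≤ l.length := by
  intro l
  induction l with
  | nil => intro h; simp at h
  | cons p l ih =>
    intro h hG
    cases p with
    | nil =>
      obtain ⟨p, l', h1, h2, h3, h4⟩ := ih (by simpa using h)
        (fun p hp => hG p (List.mem_cons_of_mem _ hp))
      exact ⟨p, l', h1, h2, h3, by rw [List.length_cons]; omega⟩
    | cons x p =>
      simp only [List.flatten_cons, List.cons_append, List.cons.injEq] at h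
      obtain ⟨rfl, h⟩ := h
      exact ⟨p, l, h.symm, hG _ List.mem_cons_self,
        fun p hp => hG p (List.mem_cons_of_mem _ hp), by simp⟩

/-- Both children of a word belong to `G`. -/
def KG (G : List (ZMod q) → Prop) (w : List (ZMod q)) : Prop := G (kid true w) ∧ G (kid false w)

theorem kids_aux (hG : FC G) : ∀ (T S x y : List (ZMod q)) (b : Bool)
    (l₁ l₂ : List (List (ZMod q))), fl b S = true → fl (!b) S = false →
    G (kid b S ++ x) → G (kid (!b) S ++ y) → kid true T = x ++ l₁.flatten →
    kid false T = y ++ l₂.flatten → (∀ p ∈ l₁, G p) → (∀ p ∈ l₂, G p) →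
    Cut (1 + l₁.length + l₂.length) (KG G) (S ++ T) := by
  have hKG : ∀ (b : Bool) (S : List (ZMod q)), G (kid b S) → G (kid (!b) S) → KG G S := by
    intro b S h1 h2
    cases b
    · exact ⟨h2, h1⟩
    · exact ⟨h1, h2⟩
  intro T
  induction T with
  | nil =>
    intro S x y b l₁ l₂ hf1 hf2 hx hy hT1 hT2 _ _
    rw [List.append_nil]
    refine (Cut.one (hKG b S ?_ ?_)).mono (by omega)
    · exact hG _ _ (List.prefix_append _ _).isInfix hx
    · exact hG _ _ (List.prefix_append _ _).isInfix hy
  | cons c T ih =>
    intro S x y b l₁ l₂ hf1 hf2 hx hy hT1 hT2 hl1 hl2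
    rw [kid_true_cons] at hT1
    rw [kid_false_cons] at hT2
    have hfl : ∀ b' : Bool, fl b' (S ++ [c]) = if c = 1 then !(fl b' S) else fl b' S := by
      intro b'
      unfold fl
      rw [List.count_append, List.count_singleton]
      by_cases h : c = 1
      · rcases Nat.mod_two_eq_zero_or_one (S.count 1) with h1 | h1
        · simp [h, h1, Nat.add_mod]
        · simp [h, h1, Nat.add_mod]
      · simp [h]
    have hk1 : kid b (S ++ [c]) = kid b S ++ [c - 1] := by
      rw [kid_append, hf1, kid_true_cons]; simp
    have hk2 : kid (!b) (S ++ [c]) = kid (!b) S := by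
      rw [kid_append, hf2, kid_false_cons]; simp
    cases x with
    | cons d x =>
      rw [List.cons_append, List.cons.injEq] at hT1
      obtain ⟨rfl, hT1⟩ := hT1
      have e : S ++ c :: T = (S ++ [c]) ++ T := by simp
      rw [e]
      by_cases h : c = 1
      · have h1 := ih (S ++ [c]) y x (!b) l₂ l₁ (by rw [hfl, if_pos h, hf2]; rfl)
          (by rw [Bool.not_not, hfl, if_pos h, hf1]; rfl) (by rw [hk2]; exact hy)
          (by rw [Bool.not_not, hk1]; simpa using hx) (by simpa [h] using hT2)
          (by simpa [h] using hT1) hl2 hl1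
        exact h1.mono (by omega)
      · exact ih (S ++ [c]) x y b l₁ l₂ (by rw [hfl, if_neg h, hf1])
          (by rw [hfl, if_neg h, hf2]) (by rw [hk1]; simpa using hx)
          (by rw [hk2]; exact hy) (by simpa [h] using hT1) (by simpa [h] using hT2) hl1 hl2
    | nil =>
      obtain ⟨x', l₁', h1, h2, h3, h4⟩ := first_piece (G := G) _ _ l₁ hT1.symm hl1
      have hS : KG G S := hKG b S (by simpa using hx)
        (hG _ _ (List.prefix_append _ _).isInfix hy)
      have hy' : G y := hG _ _ (List.suffix_append _ _).isInfix hy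
      have key : Cut (1 + l₁'.length + l₂.length) (KG G) ([c] ++ T) := by
        by_cases h : c = 1
        · have h5 := ih [c] y x' false l₂ l₁' (by simp [fl, h]) (by simp [fl, h])
            (by rw [kid_false_cons]; simpa using hy')
            (by rw [Bool.not_false, kid_true_cons]; simpa using h2) (by simpa [h] using hT2)
            (by simpa [h] using h1) hl2 h3
          exact h5.mono (by omega)
        · have h5 := ih [c] x' y true l₁' l₂ (by simp [fl, h]) (by simp [fl, h])
            (by rw [kid_true_cons]; simpa using h2)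
            (by rw [Bool.not_true, kid_false_cons]; simpa using hy') (by simpa [h] using h1)
            (by simpa [h] using hT2) h3 hl2
          exact h5
      have := (Cut.one hS).append key
      exact this.mono (by omega)

theorem kids (hG : FC G) (h0 : G []) {n m : ℕ} {T : List (ZMod q)} (h1 : Cut n G (kid true T))
    (h2 : Cut m G (kid false T)) : Cut (n + m + 1) (KG G) T := by
  obtain ⟨ps, h3, h4, h5⟩ := h1
  obtain ⟨qs, h6, h7, h8⟩ := h2
  have h := kids_aux hG T [] [] [] true ps qs (by simp [fl]) (by simp [fl]) (by simpa using h0)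
    (by simpa using h0) (by simpa using h3.symm) (by simpa using h6.symm) h5 h8
  rw [List.nil_append] at h
  exact h.mono (by omega)

end kids

end R4.Al
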