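import Pool.Agent.Work.MP_e3f5d9_al_helper21.TA2

/-!
# Class words at alpha, part 3: decomposition into good words
-/

set_option autoImplicit false
set_option linter.unusedSectionVars false

open Finset

namespace R4.Al

variable {q : ℕ} {L : Type} [DecidableEq L]
variable [Fintype L] (D : KS L) (ltr : L → Option (ZMod q)) (y : L)

/-- The number of places where a word must be cut. -/
def nb : St → List L → ℕ
  | _, [] => 0
  | St.A, j :: W => if j = D.o then nb (St.B true) W else nb St.A W
  | St.B par, j :: W => if j = D.o then nb (St.B !par) W else
      if par = true then nb (St.C (ltr j).isSome (decide (j = y))) W else 1 + nb St.A W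
  | St.C fs fy, j :: W => if j = D.o then
      (if fs = true ∧ fy = true then nb (St.B true) W else 1 + nb (St.B true) W)
      else nb (St.C (fs || (ltr j).isSome) (fy || decide (j = y))) W

theorem decomp : ∀ (W : List L) (st : St), ∃ (p : List L) (ps : List (List L)),
    W = p ++ ps.flatten ∧ gd D ltr y st p ∧ (∀ p ∈ ps, gd D ltr y St.A p) ∧
      ps.length ≤ nb D ltr y st W := by
  intro W
  induction W with
  | nil =>
    intro st
    refine ⟨[], [], rfl, ?_, by simp, Nat.zero_le _⟩
    cases st <;> simp [gd]
  | cons j W ih =>
    intro st
    have hA : ∀ p, gd D ltr y (if j = D.o then St.B true else St.A) p →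
        gd D ltr y St.A (j :: p) := by
      intro p hp
      by_cases h : j = D.o
      · simpa [gd, h] using hp
      · simpa [gd, h] using hp
    cases st with
    | A =>
      obtain ⟨p, ps, h1, h2, h3, h4⟩ := ih (if j = D.o then St.B true else St.A)
      refine ⟨j :: p, ps, by rw [List.cons_append, ← h1], hA p h2, h3, ?_⟩
      by_cases h : j = D.o
      · simpa [nb, h] using h4
      · simpa [nb, h] using h4
    | B par =>
      by_cases h : j = D.o
      · obtain ⟨p, ps, h1, h2, h3, h4⟩ := ih (St.B !par)
        exact ⟨j :: p, ps, by rw [List.cons_append, ← h1], by simpa [gd, h] using h2, h3,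
          by simpa [nb, h] using h4⟩
      · cases par with
        | true =>
          obtain ⟨p, ps, h1, h2, h3, h4⟩ := ih (St.C (ltr j).isSome (decide (j = y)))
          exact ⟨j :: p, ps, by rw [List.cons_append, ← h1], by simpa [gd, h] using h2, h3,
            by simpa [nb, h] using h4⟩
        | false =>
          obtain ⟨p, ps, h1, h2, h3, h4⟩ := ih (if j = D.o then St.B true else St.A)
          refine ⟨[], (j :: p) :: ps, ?_, by simp [gd], ?_, ?_⟩
          · simp [← h1]
          · intro p' hp'
            rcases List.mem_cons.1 hp' with rfl | hp'
            · exact hA p h2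
            · exact h3 p' hp'
          · rw [if_neg h] at h4
            simp only [nb, if_neg h, List.length_cons, Bool.false_eq_true, if_false]
            omega
    | C fs fy =>
      by_cases h : j = D.o
      · obtain ⟨p, ps, h1, h2, h3, h4⟩ := ih (St.B true)
        by_cases hf : fs = true ∧ fy = true
        · refine ⟨j :: p, ps, by rw [List.cons_append, ← h1], ?_, h3, ?_⟩
          · simp only [gd, if_pos h]
            exact ⟨hf.1, hf.2, h2⟩
          · simpa [nb, h, hf] using h4
        · refine ⟨[], (j :: p) :: ps, by simp [← h1], by simp [gd], ?_, ?_⟩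
          · intro p' hp'
            rcases List.mem_cons.1 hp' with rfl | hp'
            · exact hA p (by simpa [h] using h2)
            · exact h3 p' hp'
          · simp only [nb, if_pos h, if_neg hf, List.length_cons]
            omega
      · obtain ⟨p, ps, h1, h2, h3, h4⟩ :=
          ih (St.C (fs || (ltr j).isSome) (fy || decide (j = y)))
        exact ⟨j :: p, ps, by rw [List.cons_append, ← h1], by simpa [gd, h] using h2, h3,
          by simpa [nb, h] using h4⟩

/-- The number of odd `o`-runs; the flag is the parity of the current run. -/
def od : Bool → List L → ℕ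
  | par, [] => par.toNat
  | par, j :: W => if j = D.o then od (!par) W else par.toNat + od false W

theorem count_le_od : ∀ W : List L, (red W).count D.o ≤ od D false W ∧
    (red (D.o :: W)).count D.o ≤ od D true W := by
  intro W
  have h0 : ∀ (j : L) (V : List L), j ≠ D.o → (red (j :: V)).count D.o ≤ (red V).count D.o := by
    intro j V hj
    rw [B1pAux.red_cons]
    cases red V with
    | nil => simp [B1pAux.rc, hj]
    | cons z t =>
      by_cases h : j = z
      · subst h
        simp [B1pAux.rc, hj]
      · simp [B1pAux.rc, h, hj]
  have h1 : ∀ V : List L, (red (D.o :: V)).count D.o ≤ (red V).count D.o + 1 := by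
    intro V
    rw [B1pAux.red_cons]
    cases red V with
    | nil => simp [B1pAux.rc]
    | cons z t =>
      by_cases h : D.o = z
      · subst h
        simp [B1pAux.rc]
        omega
      · simp [B1pAux.rc, h]
  induction W with
  | nil => simp [red, od]
  | cons j W ih =>
    by_cases hj : j = D.o
    · subst hj
      refine ⟨by simpa [od] using ih.2, ?_⟩
      have := B1pAux.red_cancel D.o [] W
      simp only [List.nil_append] at this
      rw [this]
      simpa [od] using ih.1
    · have h2 := h0 j W hj
      have h3 := h1 (j :: W)
      simp only [od, if_neg hj, Bool.toNat_true, Bool.toNat_false]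
      omega

/-- The flags of a state. -/
def fB : St → Bool
  | St.B _ => true
  | _ => false

/-- The parity of a state. -/
def fP : St → Bool
  | St.B p => p
  | _ => false

theorem rA_o (b : Bool) (W : List L) (A : Finset L) (j : L) (h : j ∈ A) :
    runsAux A b (j :: W) = (if b = true then 0 else 1) + runsAux A true W := by
  simp [runsAux, h]

theorem rA_n (b : Bool) (W : List L) (A : Finset L) (j : L) (h : j ∉ A) :
    runsAux A b (j :: W) = runsAux A false W := by
  simp [runsAux, h]

/-- The main count, all states. -/
theorem nb_aux (S : Finset L) (hS : ∀ j, j ≠ D.o → ((ltr j).isSome ↔ j ∈ S)) (hyo : y ≠ D.o) :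
    ∀ (W : List L) (st : St) (f g : Bool),
    (∀ par, st = St.B par → f = true ∧ g = true) →
    (∀ fs fy, st = St.C fs fy → f = !fs ∧ g = !fy) →
    nb D ltr y st W + runsAux {D.o} f (W.filter fun x => x ∈ S ∨ x ∈ ({D.o} : Finset L)) +
      runsAux {D.o} g (W.filter fun x => x ∈ ({y} : Finset L) ∨ x ∈ ({D.o} : Finset L)) +
      od D (fP st) W ≤ 3 * runsAux {D.o} (fB st) W + (fB st).toNat := by
  intro W
  induction W with
  | nil =>
    intro st f g _ _
    cases st with
    | A => simp [nb, runsAux, od, fB, fP]
    | B par => cases par <;> simp [nb, runsAux, od, fB, fP]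
    | C fs fy => simp [nb, runsAux, od, fB, fP]
  | cons j W ih =>
    intro st f g hfB hfC
    by_cases hj : j = D.o
    · subst hj
      have e1 : (D.o :: W).filter (fun x => x ∈ S ∨ x ∈ ({D.o} : Finset L)) =
          D.o :: W.filter (fun x => x ∈ S ∨ x ∈ ({D.o} : Finset L)) := by
        rw [List.filter_cons_of_pos]; simp
      have e2 : (D.o :: W).filter (fun x => x ∈ ({y} : Finset L) ∨ x ∈ ({D.o} : Finset L)) =
          D.o :: W.filter (fun x => x ∈ ({y} : Finset L) ∨ x ∈ ({D.o} : Finset L)) := by
        rw [List.filter_cons_of_pos]; simp
      rw [e1, e2, rA_o _ _ _ _ (by simp), rA_o _ _ _ _ (by simp), rA_o _ _ _ _ (by simp)]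
      have ihB := fun par => ih (St.B par) true true (fun _ _ => ⟨rfl, rfl⟩)
        (fun fs fy h => by simp at h)
      cases st with
      | A =>
        have := ihB true
        simp only [nb, od, fB, fP, if_true, Bool.not_false, Bool.toNat_true, Bool.toNat_false,
          Bool.false_eq_true, if_false] at this ⊢
        split_ifs <;> omega
      | B par =>
        obtain ⟨rfl, rfl⟩ := hfB par rfl
        have := ihB (!par)
        simp only [nb, od, fB, fP, if_true, Bool.toNat_true] at this ⊢
        omega
      | C fs fy =>
        obtain ⟨rfl, rfl⟩ := hfC fs fy rfl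
        have := ihB true
        simp only [fB, fP, Bool.toNat_true] at this
        generalize runsAux {D.o} true
          (W.filter fun x => x ∈ S ∨ x ∈ ({D.o} : Finset L)) = r1 at *
        generalize runsAux {D.o} true
          (W.filter fun x => x ∈ ({y} : Finset L) ∨ x ∈ ({D.o} : Finset L)) = r2 at *
        cases fs <;> cases fy <;> simp [nb, od, fB, fP] <;> omega
    · have e0 : runsAux {D.o} (fB st) (j :: W) = runsAux {D.o} false W :=
        rA_n _ _ _ _ (by simpa using hj)
      rw [e0]
      -- the new flags
      have e1 : runsAux {D.o} f ((j :: W).filter fun x => x ∈ S ∨ x ∈ ({D.o} : Finset L)) =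
          runsAux {D.o} (f && !(ltr j).isSome)
            (W.filter fun x => x ∈ S ∨ x ∈ ({D.o} : Finset L)) := by
        by_cases hs : (ltr j).isSome
        · have hjS := (hS j hj).1 hs
          rw [List.filter_cons_of_pos (by simp [hjS]), rA_n _ _ _ _ (by simpa using hj)]
          simp [hs]
        · have hjS : j ∉ S := fun h => hs ((hS j hj).2 h)
          rw [List.filter_cons_of_neg (by simp [hjS, hj])]
          simp [hs]
      have e2 : runsAux {D.o} g ((j :: W).filter fun x => x ∈ ({y} : Finset L) ∨
          x ∈ ({D.o} : Finset L)) = runsAux {D.o} (g && !(decide (j = y)))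
            (W.filter fun x => x ∈ ({y} : Finset L) ∨ x ∈ ({D.o} : Finset L)) := by
        by_cases hs : j = y
        · rw [List.filter_cons_of_pos (by simp [hs]), rA_n _ _ _ _ (by simpa using hj)]
          simp [hs]
        · rw [List.filter_cons_of_neg (by simp [hs, hj])]
          simp [hs]
      rw [e1, e2]
      have ihA := ih St.A (f && !(ltr j).isSome) (g && !(decide (j = y)))
        (fun par h => by simp at h) (fun fs fy h => by simp at h)
      cases st with
      | A =>
        simp only [nb, od, fB, fP, if_neg hj, Bool.toNat_false] at ihA ⊢
        omega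
      | B par =>
        obtain ⟨rfl, rfl⟩ := hfB par rfl
        cases par with
        | true =>
          have := ih (St.C (ltr j).isSome (decide (j = y))) (true && !(ltr j).isSome)
            (true && !(decide (j = y))) (fun par h => by simp at h)
            (fun fs fy h => by
              simp only [St.C.injEq] at h
              obtain ⟨rfl, rfl⟩ := h
              simp)
          simp only [nb, od, fB, fP, if_neg hj, if_true, Bool.toNat_true,
            Bool.toNat_false] at this ⊢
          omega
        | false =>
          simp only [nb, od, fB, fP, if_neg hj, Bool.false_eq_true, if_false, Bool.toNat_true,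
            Bool.toNat_false] at ihA ⊢
          omega
      | C fs fy =>
        obtain ⟨rfl, rfl⟩ := hfC fs fy rfl
        have := ih (St.C (fs || (ltr j).isSome) (fy || decide (j = y)))
          ((!fs) && !(ltr j).isSome) ((!fy) && !(decide (j = y))) (fun par h => by simp at h)
            (fun fs' fy' h => by
              simp only [St.C.injEq] at h
              obtain ⟨rfl, rfl⟩ := h
              simp)
        simp only [nb, od, fB, fP, if_neg hj, Bool.toNat_false] at this ⊢
        omega

/-- The number of cuts. -/
theorem nb_le (S : Finset L) (hS : ∀ j, j ≠ D.o → ((ltr j).isSome ↔ j ∈ S)) (hyo : y ≠ D.o)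
    (W : List L) :
    nb D ltr y St.A W + blk S {D.o} W + blk {y} {D.o} W + rr {D.o} W ≤ 3 * runs {D.o} W := by
  have h := nb_aux D ltr y S hS hyo W St.A false false (fun par h => by simp at h)
    (fun fs fy h => by simp at h)
  have h2 := (count_le_od D W).1
  have h3 := (b1p L).rr_single D.o W
  simp only [fB, fP, Bool.toNat_false] at h
  unfold blk runs
  omega

end R4.Al
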