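import Pool.Agent.Work.MP_e3f5d9_al.TB0
import Pool.Agent.Work.MP_e3f5d9_al.TB3
import Pool.Agent.Work.MP_e3f5d9_al.B2b
import Pool.Agent.Work.MP_e3f5d9_al_helper21.TA4

/-!
# Class words at alpha, part 5: the leaf letters and the nodes

`kk i` is the number of leading `true` sides of the letter `i`; `q = kk o + 1`.
-/

set_option autoImplicit false
set_option linter.unusedSectionVars false

open Finset

namespace R4.Al

variable {L : Type} [Fintype L] [DecidableEq L] (D : KS L)

/-- The numbers of leading `true` sides. -/
structure KK (kk : L → ℕ) : Prop where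
  k0 : ∀ i, D.side i = false → kk i = 0
  k1 : ∀ i, D.side i = true → kk i = kk (D.nxt i) + 1

variable (kk : L → ℕ) (q : ℕ)

/-- The class of a letter at alpha. -/
def cls (i : L) : ZMod q := -(kk i : ZMod q)

/-- The letters of a class. -/
def Arm (a : ZMod q) : Finset L := univ.filter fun i => cls kk q i = a

/-- The leaf letter of a class. -/
def lf (a : ZMod q) : L := D.nxt^[(a - 1).val] D.o

/-- The class of a leaf letter. -/
def lt (j : L) : Option (ZMod q) := if lf D q (cls kk q j) = j then some (cls kk q j) else none

/-- The set of the leaf letters. -/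
def LS : Finset L := univ.filter fun j => (lt D kk q j).isSome

section basic

variable {kk} {q} (hK : KK D kk) (hq : q = kk D.o + 1)

include hK in
theorem side_of_pos (i : L) (h : kk i ≠ 0) : D.side i = true := by
  cases hs : D.side i
  · exact absurd (hK.k0 i hs) h
  · rfl

include hK in
theorem kk_iter : ∀ l : ℕ, l ≤ kk D.o → kk (D.nxt^[l] D.o) = kk D.o - l := by
  intro l
  induction l with
  | zero => intro _; simp
  | succ l ih =>
    intro hl
    have h1 := ih (by omega)
    rw [Function.iterate_succ_apply']
    have h2 := hK.k1 _ (side_of_pos D hK _ (by omega : kk (D.nxt^[l] D.o) ≠ 0))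
    omega

include hK hq

theorem kk_lf [NeZero q] (a : ZMod q) : kk (lf D q a) = q - 1 - (a - 1).val := by
  have h := ZMod.val_lt (a - 1)
  rw [lf, kk_iter D hK _ (by omega)]
  omega

theorem cls_lf [NeZero q] (a : ZMod q) : cls kk q (lf D q a) = a := by
  have h := ZMod.val_lt (a - 1)
  have h1 := kk_lf D hK hq a
  have h2 : kk (lf D q a) + (a - 1).val + 1 = q := by omega
  have h3 : ((kk (lf D q a) + (a - 1).val + 1 : ℕ) : ZMod q) = 0 := by
    rw [h2]; simp
  push_cast at h3
  rw [ZMod.natCast_zmod_val] at h3
  unfold cls
  linear_combination (-1 : ZMod q) * h3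

theorem lt_iff [NeZero q] (a : ZMod q) (j : L) : lt D kk q j = some a ↔ j = lf D q a := by
  unfold lt
  constructor
  · intro h
    split_ifs at h with h1
    · rw [Option.some.injEq] at h
      rw [← h, h1]
  · rintro rfl
    rw [cls_lf D hK hq, if_pos rfl]

theorem lf_one [NeZero q] : lf D q 1 = D.o := by
  simp [lf]

theorem lf_succ [NeZero q] (a : ZMod q) (ha : a ≠ 0) : D.nxt (lf D q a) = lf D q (a + 1) := by
  unfold lf
  rw [add_sub_cancel_right, ← Function.iterate_succ_apply' D.nxt]
  congr 1
  have h1 : (1 : ℕ) ≤ a.val := Nat.pos_of_ne_zero (fun h => ha ((ZMod.val_eq_zero a).1 h))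
  have h2 : (a - 1).val = a.val - 1 := by
    have h3 : (((a.val - 1 : ℕ) : ZMod q)) = a - 1 := by
      rw [Nat.cast_sub h1, ZMod.natCast_zmod_val]
      simp
    rw [← h3, ZMod.val_natCast, Nat.mod_eq_of_lt]
    have := ZMod.val_lt a
    omega
  omega

theorem side_lf [NeZero q] (a : ZMod q) (ha : a ≠ 0) : D.side (lf D q a) = true := by
  apply side_of_pos D hK
  intro h
  apply ha
  have h1 := cls_lf D hK hq a
  unfold cls at h1
  rw [h] at h1
  simpa using h1.symm

theorem side_lf_zero [NeZero q] : D.side (lf D q 0) = false := by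
  cases hs : D.side (lf D q 0)
  · rfl
  · exfalso
    have h1 := hK.k1 _ hs
    have h2 := kk_lf D hK hq 0
    have h3 : ((0 : ZMod q) - 1).val = q - 1 := by
      obtain ⟨m, rfl⟩ : ∃ m, q = m + 1 := ⟨q - 1, by have := NeZero.ne q; omega⟩
      rw [zero_sub, ZMod.val_neg_one]
      rfl
    omega

/-- The leaf letters have the structure used in part 1. -/
theorem leaf [NeZero q] (h1 : Basics D) :
    Leaf D q (lt D kk q) (D.nxt (lf D q 0)) where
  k1 := (lt_iff D hK hq 1 _).2 (lf_one D hK hq).symm
  k2 := by
    intro j hj
    cases hl : lt D kk q j with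
    | some a =>
      have e := (lt_iff D hK hq a j).1 hl
      subst e
      have ha : a ≠ 1 := by
        rintro rfl
        exact hj (lf_one D hK hq)
      have ha' : a - 1 ≠ 0 := sub_ne_zero.2 ha
      have h2 : D.pre true (lf D q a) = some (lf D q (a - 1)) := by
        rw [h1.pre_eq]
        refine ⟨?_, side_lf D hK hq _ ha'⟩
        rw [lf_succ D hK hq _ ha', sub_add_cancel]
      rw [h2]
      simpa using (lt_iff D hK hq (a - 1) _).2 rfl
    | none =>
      cases hp : D.pre true j with
      | none => simp
      | some i =>
        obtain ⟨h2, h3⟩ := (h1.pre_eq true j i).1 hp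
        cases hi : lt D kk q i with
        | none => simp [hi]
        | some b =>
          exfalso
          have e := (lt_iff D hK hq b i).1 hi
          subst e
          have hb : b ≠ 0 := by
            rintro rfl
            rw [side_lf_zero D hK hq] at h3
            simp at h3
          rw [lf_succ D hK hq b hb] at h2
          have := (lt_iff D hK hq (b + 1) j).2 h2.symm
          rw [hl] at this
          simp at this
  k3 := by
    intro j hj
    have h2 : D.pre false (D.nxt (lf D q 0)) = some (lf D q 0) := by
      rw [h1.pre_eq]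
      exact ⟨rfl, side_lf_zero D hK hq⟩
    by_cases hy : j = D.nxt (lf D q 0)
    · rw [if_pos hy, hy, h2]
      simpa using (lt_iff D hK hq 0 _).2 rfl
    · rw [if_neg hy]
      cases hp : D.pre false j with
      | none => simp
      | some i =>
        obtain ⟨h3, h4⟩ := (h1.pre_eq false j i).1 hp
        cases hi : lt D kk q i with
        | none => simp [hi]
        | some b =>
          exfalso
          have e := (lt_iff D hK hq b i).1 hi
          subst e
          by_cases hb : b = 0
          · subst hb
            exact hy h3.symm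
          · rw [side_lf D hK hq b hb] at h4
            simp at h4
  k4 := by
    intro j hj
    rw [(lt_iff D hK hq 1 j).1 hj, lf_one D hK hq]
  yo := D.nxt_ne _

theorem lp_arm [NeZero q] (a : ZMod q) (ha : a ≠ 1) :
    D.lp true (Arm kk q a) = Arm kk q (a - 1) := by
  ext i
  simp only [KS.lp, Arm, Finset.mem_filter, Finset.mem_univ, true_and]
  constructor
  · rintro ⟨h1, h2⟩
    have h3 := hK.k1 i h1
    unfold cls at h2 ⊢
    rw [h3, ← h2]
    push_cast
    ring
  · intro h
    have h1 : D.side i = true := by
      apply side_of_pos D hK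
      intro h0
      apply ha
      unfold cls at h
      rw [h0] at h
      simp only [Nat.cast_zero, neg_zero] at h
      exact (sub_eq_zero.1 h.symm)
    refine ⟨h1, ?_⟩
    have h3 := hK.k1 i h1
    unfold cls at h ⊢
    rw [h3] at h
    push_cast at h
    linear_combination h

theorem lp_lf [NeZero q] (a : ZMod q) (ha : a ≠ 1) :
    D.lp true {lf D q a} = {lf D q (a - 1)} := by
  have ha' : a - 1 ≠ 0 := sub_ne_zero.2 ha
  have h0 := lf_succ D hK hq _ ha'
  rw [sub_add_cancel] at h0
  ext i
  simp only [KS.lp, Finset.mem_filter, Finset.mem_univ, true_and, Finset.mem_singleton]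
  constructor
  · rintro ⟨h1, h2⟩
    exact D.inj i _ (by rw [h2, h0]) (by rw [h1, side_lf D hK hq _ ha'])
  · rintro rfl
    exact ⟨side_lf D hK hq _ ha', h0⟩

theorem mem_arm [NeZero q] (a : ZMod q) : lf D q a ∈ Arm kk q a := by
  simp only [Arm, Finset.mem_filter, Finset.mem_univ, true_and]
  exact cls_lf D hK hq a

/-- Every class run alternates with its leaf letter. -/
theorem mono_lf [NeZero q] {E : Finset (Finset L)} (h : D.Mono E (Arm kk q 1)ᶜ {D.o}) :
    ∀ a : ZMod q, D.Mono E (Arm kk q a)ᶜ {lf D q a} := by
  have key : ∀ l : ℕ, l < q → D.Mono E (Arm kk q (1 + (l : ZMod q)))ᶜ {lf D q (1 + (l : ZMod q))} := by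
    intro l
    induction l with
    | zero =>
      intro _
      simp only [Nat.cast_zero, add_zero]
      rw [lf_one D hK hq]
      exact h
    | succ l ih =>
      intro hl
      have h1 := ih (by omega)
      set a : ZMod q := 1 + ((l + 1 : ℕ) : ZMod q) with ha
      have ha1 : a ≠ 1 := by
        intro h2
        have h3 : (((l + 1 : ℕ)) : ZMod q) = 0 := by
          have := congrArg (fun z => z - 1) h2
          simpa [ha] using this
        rw [ZMod.natCast_eq_zero_iff] at h3
        have := Nat.le_of_dvd (by omega) h3
        omega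
      have ha2 : a - 1 = 1 + (l : ZMod q) := by
        rw [ha]; push_cast; ring
      have ho : cls kk q D.o = 1 := by
        have := cls_lf D hK hq 1
        rwa [lf_one D hK hq] at this
      refine KS.Mono.image true _ _ ?_ ?_ ?_
      · simp only [Arm, Finset.mem_compl, Finset.mem_filter, Finset.mem_univ, true_and, ho]
        exact fun h => ha1 h.symm
      · rw [Finset.disjoint_singleton_right, Finset.mem_compl, not_not]
        exact mem_arm D hK hq a
      · rw [compl_compl, lp_arm D hK hq a ha1, lp_lf D hK hq a ha1, ha2]
        exact h1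
  intro a
  have h1 := key (a - 1).val (ZMod.val_lt _)
  have h2 : (1 : ZMod q) + (((a - 1).val : ℕ) : ZMod q) = a := by
    rw [ZMod.natCast_zmod_val]; ring
  rwa [h2] at h1

end basic

end R4.Al
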