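import Pool.Agent.Work.MP_e3f5d9_al_h92.SAlpha
import Pool.Agent.Work.MP_e3f5d9_al.B2c
import Pool.Agent.Work.MP_e3f5d9_al.B2d
import Pool.Agent.Work.MP_e3f5d9_al_helper21.TA5

/-!
# Class words at alpha, part 6: the nodes of uniformly tight words

Every node of a UT word, with `j` generations below, has a class word that is a product of at most
`c` words of the class `Good C j` (`C` does not depend on `j`).
-/

set_option autoImplicit false
set_option linter.unusedSectionVars false

open Finset

namespace R4.Al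

variable {L : Type} [Fintype L] [DecidableEq L] (D : KS L)

/-- Nodes with `j` generations below. -/
def NN (E : Finset (Finset L)) (n0 θ d j : ℕ) (W : List L) : Prop :=
  ∃ (k : ℕ) (F : List L) (u : List Bool) (F' : List L), D.UT E n0 θ k F ∧ F' <:+: F ∧
    d ≤ u.length ∧ u.length + d + j ≤ k ∧ W = D.secL u F'

/-- The conclusion of the closure theorem, one pair. -/
def Cl (E : Finset (Finset L)) (n0 θ : ℕ) (X Y : Finset L) (c d : ℕ) : Prop :=
  ∀ k F, D.UT E n0 θ k F → ∀ u : List Bool, d ≤ u.length → u.length + d ≤ k →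
      ∀ F', F' <:+: F → ∀ A ∈ E, runs A (D.secL u F') ≤ bb X Y (D.secL u F') + c

variable {D} {E : Finset (Finset L)} {n0 θ : ℕ}

theorem side_raw (hU : UTBasics D) (hE : D.Mixing E) (hexp : D.Exp E n0) {k : ℕ} {F : List L}
    (hF : D.UT E n0 θ k F) {F' : List L} (hF' : F' <:+: F) {u : List Bool} (hu : u.length ≤ k)
    (X : Finset L) (hX : D.Side E X) :
    runs X (D.secL u F') ≤ runs ({D.o}ᶜ) (D.secL u F') + (TB3Aux.K0 n0 θ + 1) ∧
    runs ({D.o}ᶜ) (D.secL u F') ≤ rr X (D.secL u F') + (TB3Aux.K0 n0 θ + 1) ∧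
    runs ({D.o}ᶜ) (D.secL u F') ≤ runs X (D.secL u F') + (TB3Aux.K0 n0 θ + 1) := by
  have hA0 : ({D.o}ᶜ : Finset L) ∈ E := hE.base
  have tt := TB3Aux.tight D hU hE hexp hF hF' (u := u) hu
  have h1 := (TB3Aux.side' D (b1p L) E _ hA0 _ _ tt X hX).1
  have h2 : rr X (D.secL u F') ≤ runs X (D.secL u F') := (b1p L).runs_red _ _
  refine ⟨?_, h1.2, h1.2.trans (by omega)⟩
  have h3 := tt _ hX _ hA0
  have h4 : rr ({D.o}ᶜ) (D.secL u F') ≤ runs ({D.o}ᶜ) (D.secL u F') := (b1p L).runs_red _ _
  have h5 : runs X (D.secL u F') ≤ runs (D.nm X) (D.secL u F') + 1 := by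
    unfold KS.nm
    split_ifs
    · have := (b1p L).runs_compl Xᶜ (D.secL u F')
      rwa [compl_compl] at this
    · exact Nat.le_succ _
  omega

variable {kk : L → ℕ} {q : ℕ}

section

variable (hK : KK D kk) (hq : q = kk D.o + 1) (hq2 : 2 ≤ q) [NeZero q]

include hK hq

theorem ls_iff (j : L) : (lt D kk q j).isSome ↔ j ∈ LS D kk q := by
  simp [LS]

theorem mem_ls (a : ZMod q) : lf D q a ∈ LS D kk q := by
  rw [← ls_iff hK hq, (lt_iff D hK hq a _).2 rfl]
  rfl

/-- Between two runs of class `a` there is a leaf letter of another class. -/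
theorem ineq2 (W : List L) (R C : ℕ) (h1 : ∀ a : ZMod q, runs (Arm kk q a) W ≤ R + C)
    (h2 : ∀ a : ZMod q, R ≤ runs (Arm kk q a) W + C)
    (h3 : ∀ a : ZMod q, R ≤ blk (Arm kk q a)ᶜ {lf D q a} W + C) (b : ZMod q) :
    R ≤ blk ((LS D kk q).erase (lf D q b)) {lf D q b} W + (2 * C * q + 3 * C) := by
  classical
  have harm : ∀ a : ZMod q, ∀ i, i ∈ Arm kk q a ↔ cls kk q i = a := by
    intro a i
    simp [Arm]
  have hcl := cls_lf D hK hq
  set X : Finset (ZMod q) → Finset L := fun T =>
    (univ.filter fun i => cls kk q i ≠ b ∧ cls kk q i ∉ T) ∪ T.image (lf D q) with hX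
  have key : ∀ T : Finset (ZMod q), b ∉ T → R ≤ blk (X T) (Arm kk q b) W + (2 * C * T.card + C) := by
    intro T
    induction T using Finset.induction_on with
    | empty =>
      intro _
      have e : X ∅ = (Arm kk q b)ᶜ := by
        ext i
        simp [hX, harm]
      rw [e, (b1p L).blk_compl]
      have := h2 b
      simp only [Finset.card_empty, Nat.mul_zero, Nat.zero_add]
      exact this
    | insert a T ha ih =>
      intro hb
      rw [Finset.mem_insert, not_or] at hb
      have h4 := ih hb.2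
      -- the common part
      set X' : Finset L := (univ.filter fun i => cls kk q i ≠ b ∧ cls kk q i ∉ insert a T) ∪
        T.image (lf D q) with hX'
      have e1 : X T = X' ∪ Arm kk q a := by
        ext i
        simp only [hX, hX', Finset.mem_union, Finset.mem_filter, Finset.mem_univ, true_and,
          Finset.mem_image, Finset.mem_insert, harm, not_or]
        constructor
        · rintro (⟨h5, h6⟩ | h5)
          · by_cases h7 : cls kk q i = a
            · exact Or.inr h7
            · exact Or.inl (Or.inl ⟨h5, h7, h6⟩)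
          · exact Or.inl (Or.inr h5)
        · rintro ((⟨h5, h6, h7⟩ | h5) | h5)
          · exact Or.inl ⟨h5, h7⟩
          · exact Or.inr h5
          · exact Or.inl ⟨by rw [h5]; exact fun h => hb.1 h.symm, by rw [h5]; exact ha⟩
      have e2 : X (insert a T) = X' ∪ {lf D q a} := by
        ext i
        simp only [hX, hX', Finset.mem_union, Finset.mem_filter, Finset.mem_univ, true_and,
          Finset.mem_image, Finset.mem_insert, Finset.mem_singleton, not_or]
        constructor
        · rintro (h5 | ⟨c, rfl | hc, rfl⟩)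
          · exact Or.inl (Or.inl h5)
          · exact Or.inr rfl
          · exact Or.inl (Or.inr ⟨c, hc, rfl⟩)
        · rintro ((h5 | ⟨c, hc, rfl⟩) | rfl)
          · exact Or.inl h5
          · exact Or.inr ⟨c, Or.inr hc, rfl⟩
          · exact Or.inr ⟨a, Or.inl rfl, rfl⟩
      have hcX : ∀ i ∈ X', cls kk q i ≠ b ∧ cls kk q i ≠ a := by
        intro i hi
        simp only [hX', Finset.mem_union, Finset.mem_filter, Finset.mem_univ, true_and,
          Finset.mem_image, Finset.mem_insert, not_or] at hi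
        rcases hi with ⟨h5, h6, -⟩ | ⟨c, hc, rfl⟩
        · exact ⟨h5, h6⟩
        · rw [hcl]
          exact ⟨fun h => hb.2 (h ▸ hc), fun h => ha (h ▸ hc)⟩
      have h5 := blk_repl X' (Arm kk q b) (Arm kk q a) (lf D q a)
        (by
          rw [Finset.disjoint_left]
          intro i hi hi'
          exact (hcX i hi).1 ((harm b i).1 hi'))
        (by
          rw [Finset.disjoint_left]
          intro i hi hi'
          exact (hcX i hi).2 ((harm a i).1 hi'))
        (by
          rw [Finset.disjoint_left]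
          intro i hi hi'
          rw [harm] at hi hi'
          exact hb.1 (hi.symm.trans hi'))
        (mem_arm D hK hq a) W
      rw [← e1, ← e2] at h5
      have h6 := h1 a
      have h7 := h3 a
      rw [Finset.card_insert_of_notMem ha]
      have e3 : 2 * C * (T.card + 1) + C = (2 * C * T.card + C) + 2 * C := by ring
      omega
  have h4 := key (univ.erase b) (by simp)
  have e1 : X (univ.erase b) = (LS D kk q).erase (lf D q b) := by
    ext i
    simp only [hX, Finset.mem_union, Finset.mem_filter, Finset.mem_univ, true_and,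
      Finset.mem_image, Finset.mem_erase, ne_eq, and_true, not_not]
    constructor
    · rintro (⟨h5, h6⟩ | ⟨c, hc, rfl⟩)
      · exact absurd h6 h5
      · refine ⟨fun h => hc ?_, mem_ls hK hq c⟩
        have := congrArg (cls kk q) h
        rwa [hcl, hcl] at this
    · rintro ⟨h5, h6⟩
      right
      rw [← ls_iff hK hq] at h6
      obtain ⟨c, hc⟩ := Option.isSome_iff_exists.1 h6
      have h7 := (lt_iff D hK hq c i).1 hc
      exact ⟨c, fun h => h5 (by rw [h7, h]), h7.symm⟩
  have hcard : (univ.erase b : Finset (ZMod q)).card + 1 = q := by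
    rw [Finset.card_erase_of_mem (Finset.mem_univ b), Finset.card_univ, ZMod.card]
    have := NeZero.ne q
    omega
  rw [e1] at h4
  have h5 := (b1p L).blk_glue ((LS D kk q).erase (lf D q b)) (Arm kk q b) {lf D q b} W
    (by
      intro i hi
      rw [Finset.mem_erase] at hi
      rw [Finset.mem_compl, harm]
      intro h
      apply hi.1
      have h6 := hi.2
      rw [← ls_iff hK hq] at h6
      obtain ⟨c, hc⟩ := Option.isSome_iff_exists.1 h6
      have h7 := (lt_iff D hK hq c i).1 hc
      rw [h7, hcl] at h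
      rw [h7, h])
    (by
      rw [Finset.singleton_subset_iff]
      exact mem_arm D hK hq b)
  have h6 := h1 b
  have h7 := h3 b
  have h8 : 2 * C * (univ.erase b : Finset (ZMod q)).card ≤ 2 * C * q :=
    Nat.mul_le_mul_left _ (by omega)
  omega

/-- The pull-back of `{o}` and of `y` along the side `false`. -/
theorem image_zero (W : List L) :
    bb (Arm kk q 0)ᶜ {lf D q 0} (D.sec false W) + bb (Arm kk q 0)ᶜ {lf D q 0} (D.sec true W) ≤
      blk {D.nxt (lf D q 0)} {D.o} W + 1 := by
  have hy : D.nxt (lf D q 0) ≠ D.o := D.nxt_ne _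
  have hd : Disjoint ({D.o} : Finset L) {D.nxt (lf D q 0)} := by
    rw [Finset.disjoint_singleton]
    exact hy.symm
  have h1 := B5Aux.step_image D (b1 D) (b1p L) (b2b D) (b3 D) false {D.o} {D.nxt (lf D q 0)}
    (by simp) hd 0 W
  have h2 : D.lp false {D.nxt (lf D q 0)} = {lf D q 0} := by
    ext i
    simp only [KS.lp, Finset.mem_filter, Finset.mem_univ, true_and, Finset.mem_singleton]
    constructor
    · rintro ⟨h3, h4⟩
      exact D.inj _ _ h4 (by rw [h3, side_lf_zero D hK hq])
    · rintro rfl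
      exact ⟨side_lf_zero D hK hq, rfl⟩
  have h3 : ∀ V : List L, bb (Arm kk q 0)ᶜ {lf D q 0} V ≤
      bb (D.lp false ({D.o} : Finset L)ᶜ)ᶜ (D.lp false {D.nxt (lf D q 0)}) V := by
    intro V
    rw [h2]
    unfold bb
    apply blk_mono
    · intro i hi
      simp only [Arm, KS.lp, Finset.mem_filter, Finset.mem_univ, true_and, Finset.mem_compl,
        not_and, not_not] at hi ⊢
      intro hs
      exfalso
      apply hi
      unfold cls
      rw [hK.k0 i hs]
      simp
    · rw [Finset.disjoint_singleton_right, Finset.mem_compl, not_not]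
      simp only [KS.lp, Finset.mem_filter, Finset.mem_univ, true_and, Finset.mem_compl,
        Finset.mem_singleton]
      exact ⟨side_lf_zero D hK hq, hy⟩
  have h4 := h3 (D.sec false W)
  have h5 := h3 (D.sec true W)
  have h6 : bb {D.o} {D.nxt (lf D q 0)} W ≤ blk {D.o} {D.nxt (lf D q 0)} W :=
    (b1p L).blk_red _ _ _
  have h7 := (b1p L).blk_symm {D.o} {D.nxt (lf D q 0)} W hd
  simp only [KS.tot] at h1
  omega

end

/-- The nodes of UT words have bounded defects at the leaf letters. -/
theorem nodes (h : D.IsKK kk) [NeZero (D.qq kk)] (hE : D.Mixing E) (n0 θ : ℕ)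
    (hexp : D.Exp E n0)
    (harm : ∀ a : ZMod (D.qq kk), D.Side E (Arm kk (D.qq kk) a))
    (hlf : ∀ a : ZMod (D.qq kk), D.Side E {lf D (D.qq kk) a}) :
    ∃ C d : ℕ, Nodes D (D.nxt (lf D (D.qq kk) 0)) (LS D kk (D.qq kk)) (lf D (D.qq kk)) C
      (NN D E n0 θ d) := by
  classical
  have hU := tb0 D
  have hT := tb3 D (b1 D) (b1p L) (b2b D) (b2c D) (b2d D) (b3 D) hU
  have hK : KK D kk := ⟨h.zero, h.succ⟩
  have hq : D.qq kk = kk D.o + 1 := rfl
  have hq2 := h.two_le
  set q := D.qq kk with hqdef
  have hcls1 : D.cls kk 1 = Arm kk q 1 := by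
    ext i
    simp only [KS.cls, Arm, Finset.mem_filter, Finset.mem_univ, true_and, cls]
    rw [← hqdef, ← ZMod.natCast_eq_zero_iff]
    push_cast
    constructor
    · intro h; linear_combination (-1 : ZMod q) * h
    · intro h; linear_combination (-1 : ZMod q) * h
  have hm1 : D.Mono E (Arm kk q 1)ᶜ {D.o} := by
    rw [← hcls1]
    apply KS.Mono.symm
    apply sAlpha h
    rw [hcls1]
    exact harm 1
  have hm := mono_lf D hK hq hm1
  have hcl : ∀ a : ZMod q, ∃ c d, Cl D E n0 θ (Arm kk q a)ᶜ {lf D q a} c d := by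
    intro a
    obtain ⟨c, d, hcd⟩ := hT E hE n0 θ hexp _ _ (hm a) (Or.inr (hlf a))
    exact ⟨c, d, hcd⟩
  choose c d hcd using hcl
  set c1 := ∑ a, c a with hc1
  set d1 := ∑ a, d a with hd1
  have hca : ∀ a, c a ≤ c1 := fun a =>
    Finset.single_le_sum (f := c) (fun _ _ => Nat.zero_le _) (Finset.mem_univ a)
  have hda : ∀ a, d a ≤ d1 := fun a =>
    Finset.single_le_sum (f := d) (fun _ _ => Nat.zero_le _) (Finset.mem_univ a)
  set K := TB3Aux.K0 n0 θ + 1 with hKdef
  set C1 := K + c1 with hC1
  set K1 := θ + 2 * TB3Aux.K0 n0 θ + 2 ^ (n0 + 1) with hK1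
  have hso : D.Side E {D.o} := by
    unfold KS.Side KS.nm
    simpa using hE.base
  have hpow : 0 < 2 ^ n0 := Nat.two_pow_pos n0
  refine ⟨2 * C1 * q + 3 * C1 + 2 * K + K1 + 1, d1 + 1, ?_, ?_, ?_, ?_, ?_, ?_, ?_⟩
  · rintro j W W' ⟨k, F, u, F', hF, hF', hd, hk, rfl⟩ hW'
    obtain ⟨F'', X, Y, h1, h2⟩ := hU.factor u F' W' hW'
    refine ⟨k, F, D.ev X u, F'', hF, ?_, ?_, ?_, h2⟩
    · refine List.IsInfix.trans ?_ hF'
      rw [h1]
      exact ⟨X, Y, rfl⟩
    · rw [B1Aux.ev_length]; exact hd
    · rw [B1Aux.ev_length]; exact hk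
  · rintro j W b ⟨k, F, u, F', hF, hF', hd, hk, rfl⟩
    refine ⟨k, F, u ++ [b], F', hF, hF', ?_, ?_, ?_⟩
    · rw [List.length_append]; simp only [List.length_cons, List.length_nil]; omega
    · rw [List.length_append]; simp only [List.length_cons, List.length_nil]; omega
    · rw [TB3Aux.secL_snoc]
  · rintro j W ⟨k, F, u, F', hF, hF', hd, hk, rfl⟩
    exact ⟨k, F, u, F', hF, hF', hd, by omega, rfl⟩
  · rintro W ⟨k, F, u, F', hF, hF', hd, hk, rfl⟩ a
    have e1 := side_raw hU hE hexp hF hF' (u := u) (by omega) {lf D q a} (hlf a)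
    have e2 := side_raw hU hE hexp hF hF' (u := u) (by omega) {D.o} hso
    have e3 : 0 ≤ 2 * C1 * q := Nat.zero_le _
    omega
  · rintro W ⟨k, F, u, F', hF, hF', hd, hk, rfl⟩ a
    have e2 := side_raw hU hE hexp hF hF' (u := u) (by omega) {D.o} hso
    have e3 := ineq2 hK hq (D.secL u F') (runs ({D.o}ᶜ) (D.secL u F')) C1
      (fun a => by
        have := side_raw hU hE hexp hF hF' (u := u) (by omega) _ (harm a)
        omega)
      (fun a => by
        have := side_raw hU hE hexp hF hF' (u := u) (by omega) _ (harm a)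
        omega)
      (fun a => by
        have h1 := hcd a k F hF u (by have := hda a; omega) (by have := hda a; omega) F' hF'
          _ hE.base
        have h2 : bb (Arm kk q a)ᶜ {lf D q a} (D.secL u F') ≤
          blk (Arm kk q a)ᶜ {lf D q a} (D.secL u F') := (b1p L).blk_red _ _ _
        have h3 := hca a
        omega) a
    omega
  · rintro W ⟨k, F, u, F', hF, hF', hd, hk, rfl⟩
    have e2 := side_raw hU hE hexp hF hF' (u := u) (by omega) {D.o} hso
    have e3 := (TB3Aux.kids D hU (b1p L) hE hexp hF hF' (u := u) (by omega)).1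
    have e4 := image_zero hK hq (D.secL u F')
    have e5 : ∀ b, runs ({D.o}ᶜ) (D.sec b (D.secL u F')) ≤
        bb (Arm kk q 0)ᶜ {lf D q 0} (D.sec b (D.secL u F')) + c 0 := by
      intro b
      rw [← TB3Aux.secL_snoc]
      have h4 := hda 0
      exact hcd 0 k F hF (u ++ [b])
        (by rw [List.length_append]; simp only [List.length_cons, List.length_nil]; omega)
        (by rw [List.length_append]; simp only [List.length_cons, List.length_nil]; omega) F' hF'
        _ hE.base
    have e6 := e5 false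
    have e7 := e5 true
    have e8 := hca 0
    have e9 : 0 ≤ 2 * C1 * q := Nat.zero_le _
    omega
  · rintro W ⟨k, F, u, F', hF, hF', hd, hk, rfl⟩
    have e2 := side_raw hU hE hexp hF hF' (u := u) (by omega) {D.o} hso
    have e3 : 0 ≤ 2 * C1 * q := Nat.zero_le _
    omega

/-- **Class words at alpha.**  The class word (leaf letters `c_1, ..., c_q`, repetitions removed) of
a node with `j` generations below is a product of at most `c` words of the class `Good C j`, where
`C` does not depend on `j`. -/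
theorem alpha_cut (h : D.IsKK kk) [NeZero (D.qq kk)] (hE : D.Mixing E) (n0 θ : ℕ)
    (hexp : D.Exp E n0)
    (harm : ∀ a : ZMod (D.qq kk), D.Side E (Arm kk (D.qq kk) a))
    (hlf : ∀ a : ZMod (D.qq kk), D.Side E {lf D (D.qq kk) a}) :
    ∃ C d : ℕ, ∀ j : ℕ, ∃ c : ℕ, ∀ W, NN D E n0 θ d j W →
      Cut c (fun w => Good C j w) (sd (lt D kk (D.qq kk)) W) := by
  obtain ⟨C, d, hN⟩ := nodes h hE n0 θ hexp harm hlf
  have hK : KK D kk := ⟨h.zero, h.succ⟩
  have hq : D.qq kk = kk D.o + 1 := rfl
  refine ⟨2 * C + 1, d, fun j => ?_⟩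
  exact main_cut (leaf D hK hq (b1 D)) (LS D kk (D.qq kk)) (fun i => ls_iff hK hq i)
    (lf D (D.qq kk)) (fun a i => lt_iff D hK hq a i) hN j

end R4.Al
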