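import Pool.Agent.Work.MP_e3f5d9_al.TB2
import Pool.Agent.Work.MP_e3f5d9_al_helper94.AL5
import Pool.Agent.Work.MP_e3f5d9_al_helper21.TA6

/-!
# Class words at alpha, part 7: the class words at alpha are known
-/

set_option autoImplicit false
set_option linter.unusedSectionVars false

open Finset

namespace R4.Al

/-- Products of at most `c` words of a class of subexponential growth. -/
theorem cut_count {q : ℕ} [NeZero q] (G : List (ZMod q) → Prop) (h0 : G []) (K ε : ℝ)
    (hK : 1 ≤ K) (hε : 0 ≤ ε)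
    (hG : ∀ n : ℕ, (Set.ncard {w : List (ZMod q) | w.length ≤ n ∧ G w} : ℝ) ≤
      K * Real.exp (ε * n)) : ∀ (c n : ℕ),
    (Set.ncard {w : List (ZMod q) | w.length ≤ n ∧ Cut c G w} : ℝ) ≤
      (((n : ℝ) + 1) * K) ^ c * Real.exp (ε * n) := by
  classical
  haveI : Fintype (ZMod q) := ZMod.fintype q
  have hfin : ∀ (P : List (ZMod q) → Prop) (n : ℕ), {w : List (ZMod q) | w.length ≤ n ∧ P w}.Finite := by
    intro P n
    exact (List.finite_length_le (ZMod q) n).subset (fun w hw => hw.1)
  intro c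
  induction c with
  | zero =>
    intro n
    have h1 : {w : List (ZMod q) | w.length ≤ n ∧ Cut 0 G w} ⊆ {[]} := by
      rintro w ⟨-, ps, h1, h2, -⟩
      have h3 : ps = [] := List.length_eq_zero_iff.1 (Nat.le_zero.1 h2)
      subst h3
      exact h1.symm
    have h2 := Set.ncard_le_ncard h1 (Set.finite_singleton _)
    rw [Set.ncard_singleton] at h2
    have h3 : (1 : ℝ) ≤ Real.exp (ε * n) := Real.one_le_exp (by positivity)
    have h4 : ((Set.ncard {w : List (ZMod q) | w.length ≤ n ∧ Cut 0 G w} : ℕ) : ℝ) ≤ 1 := by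
      exact_mod_cast h2
    rw [pow_zero, one_mul]
    exact h4.trans h3
  | succ c ih =>
    intro n
    set S : ℕ → Set (List (ZMod q)) := fun m => {w | w.length ≤ m ∧ Cut c G w} with hS
    set T : ℕ → Set (List (ZMod q)) := fun m => {w | w.length ≤ m ∧ G w} with hT
    have h1 : {w : List (ZMod q) | w.length ≤ n ∧ Cut (c + 1) G w} ⊆
        ⋃ i ∈ range (n + 1), Set.image2 (· ++ ·) (T i) (S (n - i)) := by
      rintro w ⟨hw, ps, h1, h2, h3⟩
      rw [Set.mem_iUnion₂]
      cases ps with
      | nil =>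
        have : w = [] := h1.symm
        subst this
        exact ⟨0, by simp, [], ⟨by simp, h0⟩, [], ⟨by simp, Cut.nil _⟩, rfl⟩
      | cons p ps =>
        rw [List.flatten_cons] at h1
        have h4 : p.length + ps.flatten.length = w.length := by
          rw [← h1, List.length_append]
        refine ⟨p.length, by rw [Finset.mem_range]; omega, p, ⟨le_rfl, h3 p List.mem_cons_self⟩,
          ps.flatten, ⟨by omega, ps, rfl, by simpa using h2,
            fun p' hp' => h3 p' (List.mem_cons_of_mem _ hp')⟩, h1⟩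
    have hfinU : (⋃ i ∈ range (n + 1), Set.image2 (· ++ ·) (T i) (S (n - i))).Finite :=
      Set.Finite.biUnion (Finset.finite_toSet _) (fun i _ => (hfin _ _).image2 _ (hfin _ _))
    have h2 : ({w : List (ZMod q) | w.length ≤ n ∧ Cut (c + 1) G w}).ncard ≤
        ∑ i ∈ range (n + 1), (Set.image2 (· ++ ·) (T i) (S (n - i))).ncard :=
      (Set.ncard_le_ncard h1 hfinU).trans (Finset.set_ncard_biUnion_le _ _)
    have h3 : ∀ i, (Set.image2 (· ++ ·) (T i) (S (n - i))).ncard ≤
        (T i).ncard * (S (n - i)).ncard := by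
      intro i
      rw [← Set.image_prod, ← Set.ncard_prod]
      exact Set.ncard_image_le ((hfin _ _).prod (hfin _ _))
    have h4 : ∀ i ∈ range (n + 1), ((Set.image2 (· ++ ·) (T i) (S (n - i))).ncard : ℝ) ≤
        K * ((((n : ℝ) + 1) * K) ^ c * Real.exp (ε * n)) := by
      intro i hi
      rw [Finset.mem_range] at hi
      have hi' : i ≤ n := by omega
      calc ((Set.image2 (· ++ ·) (T i) (S (n - i))).ncard : ℝ)
          ≤ ((T i).ncard : ℝ) * ((S (n - i)).ncard : ℝ) := by exact_mod_cast h3 i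
        _ ≤ (K * Real.exp (ε * i)) *
            (((((n - i : ℕ) : ℝ) + 1) * K) ^ c * Real.exp (ε * ((n - i : ℕ) : ℝ))) := by
            apply mul_le_mul (hG i) (ih (n - i)) (Nat.cast_nonneg _)
            positivity
        _ = K * (((((n - i : ℕ) : ℝ) + 1) * K) ^ c *
            (Real.exp (ε * i) * Real.exp (ε * ((n - i : ℕ) : ℝ)))) := by ring
        _ = K * (((((n - i : ℕ) : ℝ) + 1) * K) ^ c * Real.exp (ε * n)) := by
            rw [← Real.exp_add, ← mul_add, ← Nat.cast_add, Nat.add_sub_cancel' hi']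
        _ ≤ _ := by
            apply mul_le_mul_of_nonneg_left _ (by linarith)
            apply mul_le_mul_of_nonneg_right _ (Real.exp_pos _).le
            apply pow_le_pow_left₀ (by positivity)
            apply mul_le_mul_of_nonneg_right _ (by linarith)
            have : ((n - i : ℕ) : ℝ) ≤ n := by exact_mod_cast Nat.sub_le n i
            linarith
    calc ((Set.ncard {w : List (ZMod q) | w.length ≤ n ∧ Cut (c + 1) G w} : ℕ) : ℝ)
        ≤ ∑ i ∈ range (n + 1), ((Set.image2 (· ++ ·) (T i) (S (n - i))).ncard : ℝ) := by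
          exact_mod_cast h2
      _ ≤ ∑ _i ∈ range (n + 1), K * ((((n : ℝ) + 1) * K) ^ c * Real.exp (ε * n)) :=
          Finset.sum_le_sum h4
      _ = ((n : ℝ) + 1) * (K * ((((n : ℝ) + 1) * K) ^ c * Real.exp (ε * n))) := by
          rw [Finset.sum_const, Finset.card_range, nsmul_eq_mul]
          push_cast
          ring
      _ = _ := by ring

theorem length_sdA {q : ℕ} {L : Type} [DecidableEq L] (ltr : L → Option (ZMod q)) :
    ∀ (W : List L) (p : Option (ZMod q)), (sdA ltr p W).length ≤ W.length := by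
  intro W
  induction W with
  | nil => intro p; exact le_rfl
  | cons j W ih =>
    intro p
    rw [sdA_cons]
    cases ltr j with
    | none => exact (ih p).trans (Nat.le_succ _)
    | some c =>
      by_cases h : p = some c
      · simp only [em, if_pos h, List.length_cons]
        exact (ih p).trans (Nat.le_succ _)
      · simp only [em, if_neg h, List.length_cons]
        exact Nat.succ_le_succ (ih _)

variable {L : Type} [Fintype L] [DecidableEq L] {D : KS L} {E : Finset (Finset L)}
  {kk : L → ℕ}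

/-- **The class words at alpha are known.** -/
theorem alpha_known (h : D.IsKK kk) [NeZero (D.qq kk)] (hE : D.Mixing E) (n0 θ : ℕ)
    (hexp : D.Exp E n0)
    (harm : ∀ a : ZMod (D.qq kk), D.Side E (Arm kk (D.qq kk) a))
    (hlf : ∀ a : ZMod (D.qq kk), D.Side E {lf D (D.qq kk) a}) (ε : ℝ) (hε : 0 < ε) :
    ∃ (k : ℕ) (K : ℝ), ∀ n : ℕ,
      (Set.ncard {s : List (ZMod (D.qq kk)) | ∃ W : List L, D.Node E n0 θ k W ∧ W.length ≤ n ∧
        sd (lt D kk (D.qq kk)) W = s} : ℝ) ≤ K * Real.exp (ε * n) := by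
  classical
  haveI : Fintype (ZMod (D.qq kk)) := ZMod.fintype _
  obtain ⟨C, d, hcut⟩ := alpha_cut h hE n0 θ hexp harm hlf
  obtain ⟨j, K0, hj⟩ := alphaLemma (D.qq kk) (C + 1) (ε / 2) (by positivity)
  obtain ⟨c, hc⟩ := hcut j
  set K : ℝ := max K0 1 with hKdef
  have hK1 : 1 ≤ K := le_max_right _ _
  have hG : ∀ n : ℕ, (Set.ncard {w : List (ZMod (D.qq kk)) | w.length ≤ n ∧ Good (C + 1) j w} : ℝ)
      ≤ K * Real.exp (ε / 2 * n) := by
    intro n
    refine (hj n).trans ?_
    exact mul_le_mul_of_nonneg_right (le_max_left _ _) (Real.exp_pos _).le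
  have hgood : ∀ w : List (ZMod (D.qq kk)), Good C j w → Good (C + 1) j w := by
    intro w hw u hu F hF a b
    have := hw u hu F hF a b
    omega
  have hcount := cut_count (fun w => Good (C + 1) j w) (good_short (by omega) j [] (by simp)) K
    (ε / 2) hK1 (by positivity) hG c
  obtain ⟨P, hP0, hP⟩ := TB2Aux.poly_le_exp 1 c (ε / 2) (by positivity)
  refine ⟨d + j, P * K ^ c, fun n => ?_⟩
  have hsub : {s : List (ZMod (D.qq kk)) | ∃ W : List L, D.Node E n0 θ (d + j) W ∧
      W.length ≤ n ∧ sd (lt D kk (D.qq kk)) W = s} ⊆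
      {w : List (ZMod (D.qq kk)) | w.length ≤ n ∧ Cut c (fun w => Good (C + 1) j w) w} := by
    rintro s ⟨W, ⟨F, u, hF, hu, rfl⟩, hW, rfl⟩
    refine ⟨(length_sdA _ _ _).trans hW, ?_⟩
    have h1 : NN D E n0 θ d j (D.secL u F) :=
      ⟨2 * (d + j), F, u, F, hF, List.infix_rfl, by omega, by omega, rfl⟩
    obtain ⟨ps, h2, h3, h4⟩ := hc _ h1
    exact ⟨ps, h2, h3, fun p hp => hgood p (h4 p hp)⟩
  have hfin : {w : List (ZMod (D.qq kk)) | w.length ≤ n ∧
      Cut c (fun w => Good (C + 1) j w) w}.Finite :=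
    (List.finite_length_le (ZMod (D.qq kk)) n).subset (fun w hw => hw.1)
  have h1 := Set.ncard_le_ncard hsub hfin
  calc ((Set.ncard {s : List (ZMod (D.qq kk)) | ∃ W : List L, D.Node E n0 θ (d + j) W ∧
      W.length ≤ n ∧ sd (lt D kk (D.qq kk)) W = s} : ℕ) : ℝ)
      ≤ (Set.ncard {w : List (ZMod (D.qq kk)) | w.length ≤ n ∧
          Cut c (fun w => Good (C + 1) j w) w} : ℝ) := by exact_mod_cast h1
    _ ≤ (((n : ℝ) + 1) * K) ^ c * Real.exp (ε / 2 * n) := hcount n
    _ = ((n : ℝ) + 1) ^ c * K ^ c * Real.exp (ε / 2 * n) := by rw [mul_pow]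
    _ ≤ (P * Real.exp (ε / 2 * n)) * K ^ c * Real.exp (ε / 2 * n) := by
        have h2 := hP n
        have h3 : ((1 * n + 1 : ℕ) : ℝ) = (n : ℝ) + 1 := by push_cast; ring
        rw [h3] at h2
        apply mul_le_mul_of_nonneg_right _ (Real.exp_pos _).le
        apply mul_le_mul_of_nonneg_right h2
        positivity
    _ = P * K ^ c * (Real.exp (ε / 2 * n) * Real.exp (ε / 2 * n)) := by ring
    _ = _ := by
        rw [← Real.exp_add]
        congr 2
        ring

end R4.Al
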